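import Pool.Agent.Helper78.UF.Defs

/-!
Block R of the univariate factorisation, first part: Taylor shifts of coefficient lists.
-/

set_option autoImplicit false

namespace Pool.Agent.Helper78.UF

open Pool.Agent.PolyTime Polynomial

theorem coeff_toPoly (l : List ℤ) (k : ℕ) : (toPoly l).coeff k = l.getD k 0 := by
  induction l generalizing k with
  | nil => simp [toPoly]
  | cons a l ih =>
    cases k with
    | zero => simp [toPoly]
    | succ k =>
      rw [toPoly, coeff_add, coeff_C_succ, coeff_X_mul, ih, zero_add, List.getD_cons_succ]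

/-- the polynomial with the given Gaussian coefficients, low degree first -/
noncomputable def gPoly : List (ℤ × ℤ) → Polynomial ℂ
  | [] => 0
  | c :: l => Polynomial.C (toC c) + Polynomial.X * gPoly l

@[simp] theorem toC_zero : toC (0, 0) = 0 := by
  simp [toC, Complex.ext_iff]

theorem toC_gadd (x y : ℤ × ℤ) : toC (gadd x y) = toC x + toC y := by
  simp [toC, gadd, Complex.ext_iff]

theorem toC_gmul (x y : ℤ × ℤ) : toC (gmul x y) = toC x * toC y := by
  simp [toC, gmul, Complex.ext_iff]

theorem toC_int (a : ℤ) : toC (a, 0) = (a : ℂ) := by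
  simp [toC, Complex.ext_iff]

theorem coeff_gPoly (l : List (ℤ × ℤ)) (k : ℕ) : (gPoly l).coeff k = toC (l.getD k (0, 0)) := by
  induction l generalizing k with
  | nil => simp [gPoly]
  | cons a l ih =>
    cases k with
    | zero => simp [gPoly]
    | succ k => simp [gPoly, coeff_C_succ, coeff_X_mul, ih]

theorem gPoly_zip (g q : ℤ × ℤ) (acc : List (ℤ × ℤ)) :
    gPoly (List.zipWith gadd (q :: acc) (acc.map (gmul g) ++ [(0, 0)])) =
      C (toC q) + (X + C (toC g)) * gPoly acc := by
  induction acc generalizing q with
  | nil => simp [gPoly, toC_gadd]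
  | cons c acc ih =>
    rw [List.map_cons, List.cons_append, List.zipWith_cons_cons, gPoly, ih, gPoly, toC_gadd,
      toC_gmul, C_add, C_mul]
    ring

theorem gPoly_taylor (g : ℤ × ℤ) (l : List ℤ) :
    gPoly (Pool.Agent.Helper78.UF.taylor g l) =
      Polynomial.taylor (toC g) ((toPoly l).map (Int.castRingHom ℂ)) := by
  induction l with
  | nil => simp [Pool.Agent.Helper78.UF.taylor, gPoly, toPoly]
  | cons a l ih =>
    have h1 : Pool.Agent.Helper78.UF.taylor g (a :: l) =
        shiftStep g a (Pool.Agent.Helper78.UF.taylor g l) := rfl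
    rw [h1, shiftStep, gPoly_zip, ih, toPoly, Polynomial.map_add, Polynomial.map_mul, map_X,
      map_C, map_add, taylor_mul, taylor_X, taylor_C, toC_int]
    simp

/-- Taylor coefficients are computed correctly. -/
theorem taylor_spec (g : ℤ × ℤ) (l : List ℤ) (j : ℕ) :
    toC ((Pool.Agent.Helper78.UF.taylor g l).getD j (0, 0)) =
      (Polynomial.taylor (toC g) ((toPoly l).map (Int.castRingHom ℂ))).coeff j := by
  rw [← gPoly_taylor, coeff_gPoly]

theorem length_shiftStep (g : ℤ × ℤ) (a : ℤ) (acc : List (ℤ × ℤ)) :
    (shiftStep g a acc).length = acc.length + 1 := by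
  simp [shiftStep]

theorem length_taylor (g : ℤ × ℤ) (l : List ℤ) :
    (Pool.Agent.Helper78.UF.taylor g l).length = l.length := by
  induction l with
  | nil => rfl
  | cons a l ih =>
    have h1 : Pool.Agent.Helper78.UF.taylor g (a :: l) =
        shiftStep g a (Pool.Agent.Helper78.UF.taylor g l) := rfl
    rw [h1, length_shiftStep, ih, List.length_cons]

theorem length_hat (e t : ℕ) (l : List ℤ) : (hat e t l).length = l.length := by
  simp [hat]

theorem hat_getD (e t : ℕ) (l : List ℤ) (k : ℕ) :
    (hat e t l).getD k 0 = l.getD k 0 * 2 ^ (e * k + t * (l.length - 1 - k)) := by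
  by_cases hk : k < l.length
  · rw [List.getD_eq_getElem _ _ (by rw [length_hat]; exact hk), List.getD_eq_getElem _ _ hk]
    simp [hat]
  · rw [List.getD_eq_default _ _ (by rw [length_hat]; omega),
      List.getD_eq_default _ _ (by omega)]
    simp

end Pool.Agent.Helper78.UF
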