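import Pool.Agent.Helper79.UF.RootsPT

/-!
Block R of the univariate factorisation: the exclusion test is correct.
-/

set_option autoImplicit false

namespace Pool.Agent.Helper78.UF

open Pool.Agent.PolyTime Polynomial

/-! ### evaluation -/

theorem aeval_toPoly_nil (β : ℂ) : aeval β (toPoly []) = 0 := by simp [toPoly]

theorem aeval_toPoly_cons (β : ℂ) (a : ℤ) (l : List ℤ) :
    aeval β (toPoly (a :: l)) = a + β * aeval β (toPoly l) := by
  rw [toPoly, map_add, map_mul, aeval_X, aeval_C]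
  simp

theorem aeval_toPoly_sum (β : ℂ) (l : List ℤ) :
    aeval β (toPoly l) = ∑ k ∈ Finset.range l.length, ((l.getD k 0 : ℤ) : ℂ) * β ^ k := by
  induction l with
  | nil => simp [toPoly]
  | cons a l ih =>
    rw [aeval_toPoly_cons, ih, List.length_cons, Finset.sum_range_succ', Finset.mul_sum]
    simp only [List.getD_cons_succ, List.getD_cons_zero, pow_zero, mul_one, pow_succ]
    rw [add_comm]
    congr 1
    exact Finset.sum_congr rfl (fun k _ => by ring)

theorem aeval_hat {l : List ℤ} {n : ℕ} (hn : l.length = n + 1) (e t : ℕ) (y : ℂ) :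
    aeval y (toPoly (hat e t l)) = 2 ^ (t * n) * aeval (y * 2 ^ e / 2 ^ t) (toPoly l) := by
  rw [aeval_toPoly_sum, aeval_toPoly_sum, length_hat, hn, Finset.mul_sum]
  refine Finset.sum_congr rfl (fun k hk => ?_)
  have hk' : k ≤ n := by have := Finset.mem_range.1 hk; omega
  rw [hat_getD, hn, Nat.add_sub_cancel]
  push_cast
  have h2 : (2 : ℂ) ^ (t * n) = 2 ^ (t * (n - k)) * 2 ^ (t * k) := by
    rw [← pow_add, ← Nat.mul_add, Nat.sub_add_cancel hk']
  rw [h2, div_pow, mul_pow, ← pow_mul, ← pow_mul, pow_add]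
  have h3 : (2 : ℂ) ^ (t * k) ≠ 0 := pow_ne_zero _ two_ne_zero
  field_simp

theorem eval_map_toPoly (l : List ℤ) (β : ℂ) :
    eval β ((toPoly l).map (Int.castRingHom ℂ)) = aeval β (toPoly l) := by
  rw [aeval_def, eval₂_eq_eval_map]
  rfl

/-! ### norms -/

theorem norm_toC_le (c : ℤ × ℤ) : ‖toC c‖ ≤ n1 c := by
  have h := Complex.norm_le_abs_re_add_abs_im (toC c)
  simpa [toC, n1] using h

theorem n1_le_norm (c : ℤ × ℤ) : (n1 c : ℝ) ≤ 2 * ‖toC c‖ := by
  have h1 := Complex.abs_re_le_norm (toC c)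
  have h2 := Complex.abs_im_le_norm (toC c)
  have h3 : (n1 c : ℝ) = |(toC c).re| + |(toC c).im| := by simp [toC, n1]
  linarith

theorem wsum_cons (c : ℤ × ℤ) (l : List (ℤ × ℤ)) : wsum (c :: l) = n1 c + 2 * wsum l := rfl

theorem norm_eval_le (l : List (ℤ × ℤ)) {z : ℂ} (hz : ‖z‖ ≤ 2) : ‖eval z (gPoly l)‖ ≤ wsum l := by
  induction l with
  | nil => simp [gPoly, wsum]
  | cons c l ih =>
    rw [gPoly, wsum_cons, eval_add, eval_mul, eval_C, eval_X]
    refine (norm_add_le _ _).trans ?_
    rw [norm_mul]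
    push_cast
    have h1 := norm_toC_le c
    have h2 : ‖z‖ * ‖eval z (gPoly l)‖ ≤ 2 * wsum l :=
      mul_le_mul hz ih (norm_nonneg _) (by norm_num)
    linarith

/-- a square containing a root is retained -/
theorem keep_of_near {l : List ℤ} {g : ℤ × ℤ} {β : ℂ} (hβ : aeval β (toPoly l) = 0)
    (h : ‖β - toC g‖ ≤ 2) : keep l g = true := by
  have h0 : eval (β - toC g) (gPoly (Pool.Agent.Helper78.UF.taylor g l)) = 0 := by
    rw [gPoly_taylor, taylor_eval, sub_add_cancel, eval_map_toPoly, hβ]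
  rw [keep, decide_eq_true_iff]
  rcases hP : Pool.Agent.Helper78.UF.taylor g l with _ | ⟨p, T⟩
  · simp [n1]
  · rw [hP, gPoly, eval_add, eval_mul, eval_C, eval_X] at h0
    rw [List.headD_cons, List.tail_cons]
    have h1 : ‖toC p‖ ≤ 2 * wsum T := by
      rw [eq_neg_of_add_eq_zero_left h0, norm_neg, norm_mul]
      exact mul_le_mul h (norm_eval_le T h) (norm_nonneg _) (by norm_num)
    have h2 := n1_le_norm p
    have h3 : (n1 p : ℝ) ≤ 4 * wsum T := by linarith
    exact_mod_cast h3

/-! ### the converse -/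

/-- `∑_{k < N} |G_k| 2 ^ k` -/
noncomputable def nrm (N : ℕ) (G : ℂ[X]) : ℝ := ∑ k ∈ Finset.range N, ‖G.coeff k‖ * 2 ^ k

theorem nrm_nonneg (N : ℕ) (G : ℂ[X]) : 0 ≤ nrm N G :=
  Finset.sum_nonneg (fun _ _ => by positivity)

theorem nrm_mono {N M : ℕ} (h : N ≤ M) (G : ℂ[X]) : nrm N G ≤ nrm M G :=
  Finset.sum_le_sum_of_subset_of_nonneg (Finset.range_mono h) (fun _ _ _ => by positivity)

theorem nrm_C (N : ℕ) (a : ℂ) : nrm N (C a) ≤ ‖a‖ := by
  cases N with
  | zero => simp [nrm]
  | succ N =>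
    rw [nrm, Finset.sum_range_succ', Finset.sum_eq_zero]
    · simp
    · intro k _; rw [coeff_C_succ]; simp

theorem nrm_X_mul (N : ℕ) (G : ℂ[X]) : nrm N (X * G) ≤ 2 * nrm N G := by
  cases N with
  | zero => simp [nrm]
  | succ N =>
    rw [nrm, Finset.sum_range_succ', mul_coeff_zero, coeff_X_zero, zero_mul, norm_zero, zero_mul,
      add_zero]
    refine le_trans (le_of_eq ?_) (mul_le_mul_of_nonneg_left (nrm_mono (Nat.le_succ N) G)
      (by norm_num))
    rw [nrm, Finset.mul_sum]
    refine Finset.sum_congr rfl (fun k _ => ?_)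
    rw [coeff_X_mul, pow_succ]
    ring

theorem nrm_add (N : ℕ) (G H : ℂ[X]) : nrm N (G + H) ≤ nrm N G + nrm N H := by
  rw [nrm, nrm, nrm, ← Finset.sum_add_distrib]
  refine Finset.sum_le_sum (fun k _ => ?_)
  rw [coeff_add, ← add_mul]
  exact mul_le_mul_of_nonneg_right (norm_add_le _ _) (by positivity)

theorem nrm_C_mul (N : ℕ) (b : ℂ) (G : ℂ[X]) : nrm N (C b * G) = ‖b‖ * nrm N G := by
  rw [nrm, nrm, Finset.mul_sum]
  refine Finset.sum_congr rfl (fun k _ => ?_)
  rw [coeff_C_mul, norm_mul, mul_assoc]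

theorem nrm_lin_mul (N : ℕ) (b : ℂ) (G : ℂ[X]) : nrm N ((X + C b) * G) ≤ (2 + ‖b‖) * nrm N G := by
  rw [add_mul]
  refine (nrm_add _ _ _).trans ?_
  rw [nrm_C_mul]
  have := nrm_X_mul N G
  linarith

theorem nrm_taylor (N : ℕ) (a c : ℂ) (s : Multiset ℂ) :
    nrm N (Polynomial.taylor c (C a * (s.map (fun β => X - C β)).prod)) ≤
      ‖a‖ * (s.map (fun β => 2 + ‖c - β‖)).prod := by
  induction s using Multiset.induction_on with
  | empty => simpa using nrm_C N a
  | cons β s ih =>
    rw [Multiset.map_cons, Multiset.prod_cons, Multiset.map_cons, Multiset.prod_cons]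
    have h1 : C a * ((X - C β) * (s.map (fun β => X - C β)).prod) =
        (X - C β) * (C a * (s.map (fun β => X - C β)).prod) := by ring
    have h2 : Polynomial.taylor c (X - C β) = X + C (c - β) := by
      rw [map_sub, taylor_X, taylor_C, C_sub]; ring
    rw [h1, taylor_mul, h2]
    refine (nrm_lin_mul _ _ _).trans ?_
    have h3 : (0 : ℝ) ≤ 2 + ‖c - β‖ := by positivity
    calc (2 + ‖c - β‖) * nrm N (Polynomial.taylor c (C a * (s.map (fun β => X - C β)).prod))
        ≤ (2 + ‖c - β‖) * (‖a‖ * (s.map (fun β => 2 + ‖c - β‖)).prod) :=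
          mul_le_mul_of_nonneg_left ih h3
      _ = _ := by ring

theorem norm_eval_prod (a c : ℂ) (s : Multiset ℂ) :
    ‖eval c (C a * (s.map (fun β => X - C β)).prod)‖ =
      ‖a‖ * (s.map (fun β => ‖c - β‖)).prod := by
  induction s using Multiset.induction_on with
  | empty => simp
  | cons β s ih =>
    rw [Multiset.map_cons, Multiset.prod_cons, Multiset.map_cons, Multiset.prod_cons]
    rw [eval_mul, eval_C] at ih
    rw [eval_mul, eval_mul, eval_C, eval_sub, eval_X, eval_C, norm_mul, norm_mul]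
    rw [norm_mul] at ih
    linear_combination ‖c - β‖ * ih

theorem wsum_le_nrm (l : List (ℤ × ℤ)) : (wsum l : ℝ) ≤ 2 * nrm l.length (gPoly l) := by
  induction l with
  | nil => simp [wsum, nrm]
  | cons c l ih =>
    rw [wsum_cons, List.length_cons, nrm, Finset.sum_range_succ', gPoly]
    have h1 : ∀ k, (C (toC c) + X * gPoly l).coeff (k + 1) = (gPoly l).coeff k := by
      intro k
      rw [coeff_add, coeff_C_succ, coeff_X_mul, zero_add]
    have h2 : (C (toC c) + X * gPoly l).coeff 0 = toC c := by simp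
    rw [h2]
    have h3 : ∑ k ∈ Finset.range l.length, ‖(C (toC c) + X * gPoly l).coeff (k + 1)‖ * 2 ^ (k + 1)
        = 2 * nrm l.length (gPoly l) := by
      rw [nrm, Finset.mul_sum]
      refine Finset.sum_congr rfl (fun k _ => ?_)
      rw [h1, pow_succ]; ring
    rw [h3]
    have h4 := n1_le_norm c
    push_cast
    linarith

theorem prod_lt {n : ℕ} (h1 : 1 ≤ n) (c : ℂ) (s : Multiset ℂ) (hs : Multiset.card s ≤ n)
    (h : ∀ β ∈ s, 16 * (n : ℝ) < ‖c - β‖) :
    4 * (s.map (fun β => 2 + ‖c - β‖)).prod < 5 * (s.map (fun β => ‖c - β‖)).prod := by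
  have hn : (0 : ℝ) < n := by exact_mod_cast h1
  have key : ∀ s : Multiset ℂ, (∀ β ∈ s, 16 * (n : ℝ) < ‖c - β‖) →
      0 < (s.map (fun β => ‖c - β‖)).prod ∧
      (s.map (fun β => 2 + ‖c - β‖)).prod ≤
        (1 + 1 / (8 * n)) ^ (Multiset.card s) * (s.map (fun β => ‖c - β‖)).prod := by
    intro s
    induction s using Multiset.induction_on with
    | empty => intro _; simp
    | cons β s ih =>
      intro hb
      obtain ⟨i1, i2⟩ := ih (fun γ hγ => hb γ (Multiset.mem_cons_of_mem hγ))
      have hβ := hb β (Multiset.mem_cons_self _ _)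
      have hpos : 0 < ‖c - β‖ := lt_trans (by positivity) hβ
      rw [Multiset.map_cons, Multiset.prod_cons, Multiset.map_cons, Multiset.prod_cons,
        Multiset.card_cons, pow_succ]
      refine ⟨by positivity, ?_⟩
      have h3 : 2 + ‖c - β‖ ≤ (1 + 1 / (8 * n)) * ‖c - β‖ := by
        have : 2 ≤ 1 / (8 * n) * ‖c - β‖ := by
          rw [one_div_mul_eq_div, le_div_iff₀ (by positivity)]
          linarith
        linarith
      calc (2 + ‖c - β‖) * (s.map (fun β => 2 + ‖c - β‖)).prod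
          ≤ ((1 + 1 / (8 * n)) * ‖c - β‖) *
            ((1 + 1 / (8 * n)) ^ (Multiset.card s) * (s.map (fun β => ‖c - β‖)).prod) := by
            refine mul_le_mul h3 i2 ?_ (by positivity)
            refine Multiset.prod_nonneg (fun x hx => ?_)
            obtain ⟨γ, _, rfl⟩ := Multiset.mem_map.1 hx
            positivity
        _ = _ := by ring
  obtain ⟨k1, k2⟩ := key s h
  have h4 : (1 + 1 / (8 * (n : ℝ))) ^ (Multiset.card s) < 5 / 4 := by
    calc (1 + 1 / (8 * (n : ℝ))) ^ (Multiset.card s) ≤ (1 + 1 / (8 * (n : ℝ))) ^ n := by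
          refine pow_le_pow_right₀ ?_ hs
          have : 0 ≤ 1 / (8 * (n : ℝ)) := by positivity
          linarith
      _ ≤ (Real.exp (1 / (8 * n))) ^ n := by
          refine pow_le_pow_left₀ (by positivity) ?_ _
          have := Real.add_one_le_exp (1 / (8 * (n : ℝ)))
          linarith
      _ = Real.exp (1 / 8) := by
          rw [← Real.exp_nat_mul]
          congr 1
          field_simp
      _ < 5 / 4 := by
          have := Real.exp_bound_div_one_sub_of_interval' (x := 1 / 8) (by norm_num) (by norm_num)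
          refine this.trans ?_
          norm_num
  have h5 : (1 + 1 / (8 * (n : ℝ))) ^ (Multiset.card s) * (s.map (fun β => ‖c - β‖)).prod <
      5 / 4 * (s.map (fun β => ‖c - β‖)).prod := mul_lt_mul_of_pos_right h4 k1
  linarith

/-- a retained square is near a root -/
theorem near_of_keep {l : List ℤ} {g : ℤ × ℤ} {n : ℕ} (h0 : toPoly l ≠ 0)
    (hdeg : (toPoly l).natDegree ≤ n) (h1 : 1 ≤ n) (hk : keep l g = true) :
    ∃ β : ℂ, aeval β (toPoly l) = 0 ∧ ‖β - toC g‖ ≤ 16 * n := by
  by_contra hno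
  push Not at hno
  set f := (toPoly l).map (Int.castRingHom ℂ) with hf
  have hf0 : f ≠ 0 := by
    rw [hf, Ne, Polynomial.map_eq_zero_iff (RingHom.injective_int _)]
    exact h0
  have hprod : f = C f.leadingCoeff * (f.roots.map (fun β => X - C β)).prod :=
    (IsAlgClosed.splits f).eq_prod_roots
  have hcard : Multiset.card f.roots ≤ n :=
    (card_roots' f).trans (by rw [hf]; exact natDegree_map_le.trans hdeg)
  have hfar : ∀ β ∈ f.roots, 16 * (n : ℝ) < ‖toC g - β‖ := by
    intro β hβ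
    rw [mem_roots hf0, IsRoot.def, hf, eval_map_toPoly] at hβ
    have := hno β hβ
    rwa [norm_sub_rev] at this
  have hlt := prod_lt h1 (toC g) f.roots hcard hfar
  have hlc : 0 < ‖f.leadingCoeff‖ := norm_pos_iff.2 (leadingCoeff_ne_zero.2 hf0)
  have hP := gPoly_taylor g l
  rw [← hf] at hP
  rw [keep, decide_eq_true_iff] at hk
  have hcoeff0 : ‖(gPoly (Pool.Agent.Helper78.UF.taylor g l)).coeff 0‖ =
      ‖f.leadingCoeff‖ * (f.roots.map (fun β => ‖toC g - β‖)).prod := by
    rw [hP, taylor_coeff_zero]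
    conv_lhs => rw [hprod]
    exact norm_eval_prod _ _ _
  have hnrm : nrm (Pool.Agent.Helper78.UF.taylor g l).length
      (gPoly (Pool.Agent.Helper78.UF.taylor g l)) ≤
      ‖f.leadingCoeff‖ * (f.roots.map (fun β => 2 + ‖toC g - β‖)).prod := by
    rw [hP]
    conv_lhs => rw [hprod]
    exact nrm_taylor _ _ _ _
  have hmain : 5 * ‖(gPoly (Pool.Agent.Helper78.UF.taylor g l)).coeff 0‖ ≤
      4 * nrm (Pool.Agent.Helper78.UF.taylor g l).length
        (gPoly (Pool.Agent.Helper78.UF.taylor g l)) := by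
    rcases hT : Pool.Agent.Helper78.UF.taylor g l with _ | ⟨p, T⟩
    · simp [gPoly, nrm]
    · rw [hT, List.headD_cons, List.tail_cons] at hk
      have h2 : (gPoly (p :: T)).coeff 0 = toC p := by rw [coeff_gPoly]; rfl
      have h3 : nrm (p :: T).length (gPoly (p :: T)) = ‖toC p‖ + 2 * nrm T.length (gPoly T) := by
        rw [nrm, List.length_cons, Finset.sum_range_succ', h2, gPoly]
        have h4 : ∀ k, (C (toC p) + X * gPoly T).coeff (k + 1) = (gPoly T).coeff k := by
          intro k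
          rw [coeff_add, coeff_C_succ, coeff_X_mul, zero_add]
        rw [nrm, Finset.mul_sum, add_comm]
        congr 1
        · simp
        · refine Finset.sum_congr rfl (fun k _ => ?_)
          rw [h4, pow_succ]; ring
      rw [h2, h3]
      have h5 := wsum_le_nrm T
      have h6 := norm_toC_le p
      have h7 : (n1 p : ℝ) ≤ 4 * wsum T := by exact_mod_cast hk
      linarith
  rw [hcoeff0] at hmain
  have h8 : 5 * (‖f.leadingCoeff‖ * (f.roots.map (fun β => ‖toC g - β‖)).prod) ≤
      4 * (‖f.leadingCoeff‖ * (f.roots.map (fun β => 2 + ‖toC g - β‖)).prod) :=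
    hmain.trans (mul_le_mul_of_nonneg_left hnrm (by norm_num))
  have h9 := mul_lt_mul_of_pos_left hlt hlc
  linarith

end Pool.Agent.Helper78.UF
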