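import Pool.Agent.Helper79.UF.RootsPT
import Pool.Agent.Helper78.UF.Params

/-!
Block M2 of the univariate factorisation: the pieces around the lattice reduction run in
polynomial time.
-/

set_option autoImplicit false

namespace Pool.Agent.Helper78.UF

open Pool.Agent.PolyTime

section
variable {α : Type} [PEnc α]

/-! ### small pieces -/

@[fun_prop]
theorem pt_posLead {l : α → List ℤ} (hl : PolyTime l) : PolyTime (fun a => posLead (l a)) := by
  have h1 : PolyTime (fun a => (l a).getLastD 0) := by
    refine PolyTime.congr (f := fun a => (l a).reverse.headD 0) (by fun_prop) (fun a => ?_)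
    cases h : (l a).reverse with
    | nil =>
      have : l a = [] := List.reverse_eq_nil_iff.1 h
      rw [this]; rfl
    | cons x t =>
      have : l a = t.reverse ++ [x] := by
        rw [← List.reverse_reverse (l a), h, List.reverse_cons]
      rw [this]
      simp
  unfold posLead
  fun_prop

theorem trim_eq (l : List ℤ) : trim l =
    l.foldr (fun b acc => bif acc.isEmpty && decide (b = 0) then [] else b :: acc) [] := by
  induction l with
  | nil => rfl
  | cons a l ih =>
    rw [List.foldr_cons, ← ih]
    unfold trim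
    rw [List.reverse_cons, List.dropWhile_append]
    by_cases h : (l.reverse.dropWhile (fun a => decide (a = 0))).isEmpty = true
    · have h' := List.isEmpty_iff.1 h
      rw [h']
      by_cases ha : a = 0 <;> simp [ha, List.dropWhile]
    · have h' : (l.reverse.dropWhile (fun a => decide (a = 0))).reverse.isEmpty = false := by
        rw [List.isEmpty_reverse]
        simpa using h
      have h'' : (l.reverse.dropWhile (fun a => decide (a = 0))).isEmpty = false := by
        simpa using h
      rw [h', h'']
      simp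

@[fun_prop]
theorem pt_trim {l : α → List ℤ} (hl : PolyTime l) : PolyTime (fun a => trim (l a)) := by
  have key : ∀ m : List ℤ, (m.foldr (fun b acc => bif acc.isEmpty && decide (b = 0) then []
      else b :: acc) ([] : List ℤ)).Sublist m := by
    intro m
    induction m with
    | nil => exact List.Sublist.refl _
    | cons a m ih =>
      rw [List.foldr_cons]
      generalize ((m.foldr (fun b acc => bif acc.isEmpty && decide (b = 0) then []
        else b :: acc) ([] : List ℤ)).isEmpty && decide (a = 0)) = c
      cases c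
      · exact ih.cons_cons a
      · exact List.nil_sublist _
  refine (PolyTime.foldr (h := fun _ b acc => bif acc.isEmpty && decide (b = 0) then []
    else b :: acc) (s := fun _ => ([] : List ℤ)) hl (by fun_prop) (by fun_prop) hl.pbd ?_).congr
    (fun a => (trim_eq _).symm)
  intro a i
  exact (size_sublist (key _)).trans (size_sublist (List.drop_sublist _ _))

@[fun_prop]
theorem pt_dedupL {L : α → List (List ℤ × ℕ)} (hL : PolyTime L) :
    PolyTime (fun a => dedupL (L a)) := by
  have key : ∀ m : List (List ℤ × ℕ), (m.foldr (fun p acc => bif decide (p ∈ acc) then acc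
      else p :: acc) ([] : List (List ℤ × ℕ))).Sublist m := by
    intro m
    induction m with
    | nil => exact List.Sublist.refl _
    | cons a m ih =>
      rw [List.foldr_cons]
      generalize (decide (a ∈ (m.foldr (fun p acc => bif decide (p ∈ acc) then acc
        else p :: acc) ([] : List (List ℤ × ℕ))))) = c
      cases c
      · exact ih.cons_cons a
      · exact ih.cons a
  unfold dedupL
  refine PolyTime.foldr (h := fun _ p acc => bif decide (p ∈ acc) then acc
    else p :: acc) (s := fun _ => ([] : List (List ℤ × ℕ))) hL (by fun_prop)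
    (PolyTime.cond ((PolyTime.decide_mem
      (f := fun q : α × (List ℤ × ℕ) × List (List ℤ × ℕ) => q.2.1) (l := fun q => q.2.2)
      (by fun_prop) (by fun_prop)).congr (fun q => decide_eq_decide.2 Iff.rfl))
      (by fun_prop) (by fun_prop))
    hL.pbd ?_
  intro a i
  exact (size_sublist (key _)).trans (size_sublist (List.drop_sublist _ _))

@[fun_prop]
theorem pt_divN {z : α → ℤ} {m : α → ℕ} (hz : PolyTime z) (hm : PolyTime m) :
    PolyTime (fun a => divN (z a) (m a)) := by
  have h1 : PolyTime (fun a => (((z a).natAbs / m a : ℕ) : ℤ)) :=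
    PolyTime.natCast_int (PolyTime.div (PolyTime.natAbs hz) hm)
  unfold divN
  fun_prop

@[fun_prop]
theorem pt_dotZ {u v : α → List ℤ} (hu : PolyTime u) (hv : PolyTime v) :
    PolyTime (fun a => dotZ (u a) (v a)) := by
  unfold dotZ
  fun_prop

theorem n1_gpow (g : ℤ × ℤ) (i : ℕ) : n1 (gpow g i) ≤ n1 g ^ i := by
  unfold gpow
  induction i with
  | zero => simp [n1]
  | succ i ih =>
    rw [Function.iterate_succ_apply', pow_succ, mul_comm]
    exact (n1_gmul _ _).trans (Nat.mul_le_mul_left _ ih)

theorem pt_gpow {g : α → ℤ × ℤ} {i : α → ℕ} (hg : PolyTime g) (hi : PolyTime i) (hi' : PBd i) :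
    PolyTime (fun a => gpow (g a) (i a)) := by
  unfold gpow
  refine PolyTime.iterate (f := fun a s => gmul (g a) s)
    (pt_gmul (hg.comp PolyTime.fst') PolyTime.snd') hi hi' (PolyTime.const ((1 : ℤ), (0 : ℤ)))
    (B := fun a => 3 * (i a * size (n1 (g a)) + 1) + 10) ?_ ?_
  · have h1 : PBd (fun a => size (n1 (g a))) :=
      PolyTime.pbd (f := fun a => n1 (g a)) (by fun_prop)
    exact ((PBd.const 3).mul ((hi'.mul h1).add (PBd.const 1))).add (PBd.const 10)
  · intro a j hj
    have h1 : (fun s => gmul (g a) s)^[j] (1, 0) = gpow (g a) j := rfl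
    rw [h1]
    refine (size_gauss (n1_gpow (g a) j)).trans ?_
    have h2 := size_pow_le (n1 (g a)) j
    have h3 := Nat.mul_le_mul_right (size (n1 (g a))) hj
    omega

/-! ### the lattice -/

theorem pt_pow2 {n : α → ℕ} (hn : PolyTime n) (hn' : PBd n) :
    PolyTime (fun a => ((2 ^ n a : ℕ) : ℤ)) :=
  PolyTime.natCast_int (PolyTime.pow (PolyTime.const 2) hn hn')

theorem pt_latRow {n w D i : α → ℕ} {g : α → ℤ × ℤ} (hn : PolyTime n) (hn' : PBd n)
    (hw : PolyTime w) (hw' : PBd w) (hD : PolyTime D) (hD' : PBd D) (hi : PolyTime i)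
    (hi' : PBd i) (hg : PolyTime g) :
    PolyTime (fun a => latRow (n a) (w a) (D a) (g a) (i a)) := by
  have h1 : PolyTime (fun a => ((2 ^ (w a * n a) : ℕ) : ℤ)) :=
    pt_pow2 (by fun_prop) (hw'.mul hn')
  have h2 : PolyTime (fun a => ((2 ^ (w a * (n a - i a) + w a) : ℕ) : ℤ)) :=
    pt_pow2 (by fun_prop) (PBd.mono ((hw'.mul hn').add hw') (fun a =>
      Nat.add_le_add_right (Nat.mul_le_mul_left _ (Nat.sub_le _ _)) _))
  have h3 : PolyTime (fun a => gpow (g a) (i a)) := pt_gpow hg hi hi'
  have h4 : PolyTime (fun a => (List.range (D a + 1)).map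
      (fun j => bif decide (j = i a) then ((2 ^ (w a * n a) : ℕ) : ℤ) else 0)) := by
    refine PolyTime.map (l := fun a => List.range (D a + 1))
      (g := fun a j => bif decide (j = i a) then ((2 ^ (w a * n a) : ℕ) : ℤ) else 0)
      (PolyTime.range (by fun_prop) (hD'.add (PBd.const 1))) ?_
    have h5 := h1.comp (PolyTime.fst' (α := α) (β := ℕ))
    have h6 := hi.comp (PolyTime.fst' (α := α) (β := ℕ))
    fun_prop
  unfold latRow
  fun_prop

theorem pt_lattice {n w D : α → ℕ} {g : α → ℤ × ℤ} (hn : PolyTime n) (hn' : PBd n)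
    (hw : PolyTime w) (hw' : PBd w) (hD : PolyTime D) (hD' : PBd D) (hg : PolyTime g) :
    PolyTime (fun a => lattice (n a) (w a) (D a) (g a)) := by
  have hf : PolyTime (fun p : α × ℕ => p.1) := PolyTime.fst'
  refine (PolyTime.map (l := fun a => List.range (D a + 1))
    (g := fun a i => latRow (n a) (w a) (D a) (g a) (min i (D a)))
    (PolyTime.range (by fun_prop) (hD'.add (PBd.const 1))) ?_).congr (fun a => ?_)
  · have hD1 := hD.comp hf
    exact pt_latRow (hn.comp hf) (hn'.comp hf) (hw.comp hf) (hw'.comp hf) hD1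
      (hD'.comp hf) (by fun_prop) (PBd.mono (hD'.comp hf) (fun p => min_le_right _ _))
      (hg.comp hf)
  · unfold lattice
    refine List.map_congr_left (fun i hi => ?_)
    have := List.mem_range.1 hi
    rw [min_eq_left (by omega : i ≤ D a)]

/-! ### the minimal polynomial -/

/-- the lattice reduction is polynomial time (proved elsewhere) -/
def LLLPolyTime : Prop := ∀ {α : Type} [PEnc α] {K T : α → ℕ} {B : α → List (List ℤ)},
  PolyTime K → PBd K → PolyTime T → PBd T → PolyTime B →
    PolyTime (fun a => lll (K a) (T a) (B a))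

theorem pt_minPol_of (hL : LLLPolyTime) {K T S n w : α → ℕ} {g : α → ℤ × ℤ} (hK : PolyTime K)
    (hK' : PBd K) (hT : PolyTime T) (hT' : PBd T) (hS : PolyTime S) (hS' : PBd S)
    (hn : PolyTime n) (hn' : PBd n) (hw : PolyTime w) (hw' : PBd w) (hg : PolyTime g) :
    PolyTime (fun a => minPol (K a) (T a) (S a) (n a) (w a) (g a)) := by
  have hf : PolyTime (fun p : α × ℕ => p.1) := PolyTime.fst'
  have h1 : PolyTime (fun p : α × ℕ => (p.2 + 1, shortVec (K p.1) (T p.1) (n p.1) (w p.1)
      (min p.2 (n p.1) + 1) (g p.1))) := by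
    have hn1 := hn.comp hf
    have h2 : PolyTime (fun p : α × ℕ => lattice (n p.1) (w p.1) (min p.2 (n p.1) + 1) (g p.1)) :=
      pt_lattice hn1 (hn'.comp hf) (hw.comp hf) (hw'.comp hf) (by fun_prop)
        (PBd.mono ((hn'.comp hf).add (PBd.const 1)) (fun p =>
          Nat.add_le_add_right (min_le_right _ _) _)) (hg.comp hf)
    have h3 := hL (hK.comp hf) (hK'.comp hf) (hT.comp hf) (hT'.comp hf) h2
    unfold shortVec
    fun_prop
  have h4 : PolyTime (fun a => (List.range (n a)).map (fun d => (d + 1,
      shortVec (K a) (T a) (n a) (w a) (d + 1) (g a)))) := by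
    refine (PolyTime.map (l := fun a => List.range (n a)) (g := fun a d => (d + 1,
      shortVec (K a) (T a) (n a) (w a) (min d (n a) + 1) (g a)))
      (PolyTime.range hn hn') h1).congr (fun a => ?_)
    refine List.map_congr_left (fun d hd => ?_)
    have := List.mem_range.1 hd
    rw [min_eq_left (by omega : d ≤ n a)]
  have h5 : PolyTime (fun a => ((2 ^ S a : ℕ) : ℤ)) := pt_pow2 hS hS'
  have h6 : PolyTime (fun a => 2 ^ (w a * n a)) :=
    PolyTime.pow (PolyTime.const 2) (by fun_prop) (hw'.mul hn')
  unfold minPol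
  refine PolyTime.option_elim (PolyTime.find? h4 ?_) (by fun_prop) ?_
  · have h7 := h5.comp (PolyTime.fst' (α := α) (β := ℕ × List ℤ))
    fun_prop
  · refine PolyTime.map (l := fun p : α × ℕ × List ℤ => p.2.2.take (p.2.1 + 1))
      (g := fun p z => divN z (2 ^ (w p.1 * n p.1))) (PolyTime.take (by fun_prop) (by fun_prop)) ?_
    have h8 := h6.comp (PolyTime.fst'.comp (PolyTime.fst' (α := α × ℕ × List ℤ) (β := ℤ)))
    exact pt_divN (PolyTime.snd') h8

theorem pt_multAt {u w : α → ℕ} {l : α → List ℤ} {g : α → ℤ × ℤ} (hu : PolyTime u)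
    (hu' : PBd u) (hw : PolyTime w) (hw' : PBd w) (hl : PolyTime l) (hg : PolyTime g) :
    PolyTime (fun a => multAt (u a) (w a) (l a) (g a)) := by
  have h1 : PolyTime (fun a => hat 0 (w a) (l a)) :=
    pt_hat (PolyTime.const 0) (PBd.const 0) hw hw' hl
  have h2 : PolyTime (fun a => Pool.Agent.Helper78.UF.taylor (g a) (hat 0 (w a) (l a))) :=
    pt_taylor hg h1
  have h3 : PolyTime (fun a => 2 ^ u a) := PolyTime.pow (PolyTime.const 2) hu hu'
  have h4 : PolyTime (fun p : α × ℕ => 2 ^ (w p.1 * ((l p.1).length - 1 - p.2))) := by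
    have w1 := hw.comp (PolyTime.fst' (α := α) (β := ℕ))
    have l1 := hl.comp (PolyTime.fst' (α := α) (β := ℕ))
    refine PolyTime.pow (PolyTime.const 2) (by fun_prop) ?_
    refine PBd.mono ((hw'.comp PolyTime.fst').mul (pbd_length l1)) (fun p => ?_)
    refine Nat.mul_le_mul_left _ ?_
    omega
  unfold multAt
  refine PolyTime.option_getD (PolyTime.find? (PolyTime.range (by fun_prop) (pbd_length hl)) ?_)
    (by fun_prop)
  have h5 := h2.comp (PolyTime.fst' (α := α) (β := ℕ))
  have h6 := h3.comp (PolyTime.fst' (α := α) (β := ℕ))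
  fun_prop

end

end Pool.Agent.Helper78.UF
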