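import Pool.Agent.Helper79.UF.Roots
import Pool.Agent.Helper79.UF.MultPT
import Pool.Agent.Helper69.UF.Norm

/-!
Block M2 of the univariate factorisation: the multiplicity is read off from the Taylor
coefficients at an approximation of the root.
-/

set_option autoImplicit false

namespace Pool.Agent.Helper78.UF

open Pool.Agent.PolyTime Polynomial

/-! ### values at nearby points -/

theorem norm_pow_sub_pow {z α : ℂ} {R : ℝ} (hR : 1 ≤ R) (hz : ‖z‖ ≤ R) (hα : ‖α‖ ≤ R) (i : ℕ) :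
    ‖z ^ i - α ^ i‖ ≤ i * ‖z - α‖ * R ^ i := by
  induction i with
  | zero => simp
  | succ i ih =>
    have h1 : z ^ (i + 1) - α ^ (i + 1) = z ^ i * (z - α) + (z ^ i - α ^ i) * α := by ring
    have h0 : 0 ≤ R := by linarith
    have h2 : ‖z ^ i‖ ≤ R ^ i := by
      rw [norm_pow]; exact pow_le_pow_left₀ (norm_nonneg _) hz _
    have h3 : R ^ i ≤ R ^ (i + 1) := pow_le_pow_right₀ hR (Nat.le_succ i)
    rw [h1]
    calc ‖z ^ i * (z - α) + (z ^ i - α ^ i) * α‖
        ≤ ‖z ^ i‖ * ‖z - α‖ + ‖z ^ i - α ^ i‖ * ‖α‖ := by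
          refine (norm_add_le _ _).trans ?_
          rw [norm_mul, norm_mul]
      _ ≤ R ^ (i + 1) * ‖z - α‖ + (i * ‖z - α‖ * R ^ i) * R := by
          refine add_le_add (mul_le_mul_of_nonneg_right (h2.trans h3) (norm_nonneg _)) ?_
          exact mul_le_mul ih hα (norm_nonneg _) (by positivity)
      _ = ((i + 1 : ℕ) : ℝ) * ‖z - α‖ * R ^ (i + 1) := by
          rw [pow_succ]; push_cast; ring

theorem aeval_sub_le {p : ℤ[X]} {n : ℕ} (hp : p.natDegree ≤ n) {z α : ℂ} {R T : ℝ} (hR : 1 ≤ R)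
    (hz : ‖z‖ ≤ R) (hα : ‖α‖ ≤ R) (hT : ∑ i ∈ Finset.range (n + 1), |(p.coeff i : ℝ)| ≤ T) :
    ‖aeval z p - aeval α p‖ ≤ T * (n * ‖z - α‖ * R ^ n) := by
  rw [aeval_eq_sum_range' (Nat.lt_succ_of_le hp), aeval_eq_sum_range' (Nat.lt_succ_of_le hp),
    ← Finset.sum_sub_distrib]
  have h0 : 0 ≤ R := by linarith
  calc ‖∑ i ∈ Finset.range (n + 1), (p.coeff i • z ^ i - p.coeff i • α ^ i)‖
      ≤ ∑ i ∈ Finset.range (n + 1), |(p.coeff i : ℝ)| * (n * ‖z - α‖ * R ^ n) := by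
        refine norm_sum_le_of_le _ (fun i hi => ?_)
        have hi' : i ≤ n := by have := Finset.mem_range.1 hi; omega
        rw [← smul_sub, zsmul_eq_mul, norm_mul, Complex.norm_intCast]
        refine mul_le_mul_of_nonneg_left ((norm_pow_sub_pow hR hz hα i).trans ?_) (abs_nonneg _)
        have h1 : (i : ℝ) ≤ n := by exact_mod_cast hi'
        have h2 : R ^ i ≤ R ^ n := pow_le_pow_right₀ hR hi'
        refine mul_le_mul (mul_le_mul_of_nonneg_right h1 (norm_nonneg _)) h2 (by positivity)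
          (by positivity)
    _ = (∑ i ∈ Finset.range (n + 1), |(p.coeff i : ℝ)|) * (n * ‖z - α‖ * R ^ n) := by
        rw [Finset.sum_mul]
    _ ≤ T * (n * ‖z - α‖ * R ^ n) := mul_le_mul_of_nonneg_right hT (by positivity)

/-! ### the approximation -/

section approx
variable {n e : ℕ} {α : ℂ} {g : ℤ × ℤ}

theorem sixteen_le (n : ℕ) : 16 * n ≤ 2 ^ (4 + n) := by
  have := (Nat.lt_two_pow_self (n := n)).le
  rw [pow_add]
  omega

theorem norm_sub_le_div (hg : ‖α * 2 ^ pW n e - toC g‖ ≤ 16 * n) :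
    ‖toC g / 2 ^ pW n e - α‖ ≤ 16 * n / 2 ^ pW n e := by
  have h1 : (2 : ℂ) ^ pW n e ≠ 0 := pow_ne_zero _ two_ne_zero
  have h2 : toC g / 2 ^ pW n e - α = -((α * 2 ^ pW n e - toC g) / 2 ^ pW n e) := by
    field_simp
    ring
  rw [h2, norm_neg, norm_div, norm_pow, Complex.norm_two]
  exact div_le_div_of_nonneg_right hg (by positivity)

theorem norm_sub_le_one (hg : ‖α * 2 ^ pW n e - toC g‖ ≤ 16 * n) :
    ‖toC g / 2 ^ pW n e - α‖ ≤ 1 := by
  refine (norm_sub_le_div hg).trans ?_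
  rw [div_le_one (by positivity)]
  have h1 : 16 * n ≤ 2 ^ pW n e := by
    refine (sixteen_le n).trans (Nat.pow_le_pow_right (by norm_num) ?_)
    unfold pW c0
    omega
  exact_mod_cast h1

theorem norm_approx_le (hα : ‖α‖ ≤ 2 ^ e) (hg : ‖α * 2 ^ pW n e - toC g‖ ≤ 16 * n) :
    ‖toC g / 2 ^ pW n e‖ ≤ 2 ^ (e + 1) := by
  have h1 := norm_sub_le_one hg
  have h2 : ‖toC g / 2 ^ pW n e‖ ≤ ‖toC g / 2 ^ pW n e - α‖ + ‖α‖ := by
    simpa using norm_add_le (toC g / 2 ^ pW n e - α) α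
  have h3 : (1 : ℝ) ≤ 2 ^ e := one_le_pow₀ (by norm_num)
  rw [pow_succ]
  linarith

/-- the value of an integer polynomial at the approximation -/
theorem aeval_near (hα : ‖α‖ ≤ 2 ^ e) (hg : ‖α * 2 ^ pW n e - toC g‖ ≤ 16 * n)
    {p : ℤ[X]} (hp : p.natDegree ≤ n) {k : ℕ}
    (hT : ∑ i ∈ Finset.range (n + 1), |(p.coeff i : ℝ)| ≤ 2 ^ k) :
    ‖aeval (toC g / 2 ^ pW n e) p - aeval α p‖ ≤ 2 ^ (k + c0 n e) / 2 ^ pW n e := by
  have hR : (1 : ℝ) ≤ 2 ^ (e + 1) := one_le_pow₀ (by norm_num)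
  have hα' : ‖α‖ ≤ 2 ^ (e + 1) := hα.trans (pow_le_pow_right₀ (by norm_num) (Nat.le_succ e))
  refine (aeval_sub_le hp hR (norm_approx_le hα hg) hα' hT).trans ?_
  have h1 := norm_sub_le_div hg
  have h2 : (n : ℝ) * ‖toC g / 2 ^ pW n e - α‖ * (2 ^ (e + 1)) ^ n ≤
      2 ^ c0 n e / 2 ^ pW n e := by
    have h3 : (n : ℝ) * (16 * n) * (2 ^ (e + 1)) ^ n ≤ 2 ^ c0 n e := by
      have h4 : n * (16 * n) ≤ 2 ^ (4 + 2 * n) := by
        have h5 := (Nat.lt_two_pow_self (n := n)).le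
        calc n * (16 * n) ≤ 2 ^ n * 2 ^ (4 + n) := Nat.mul_le_mul h5 (sixteen_le n)
          _ = 2 ^ (4 + 2 * n) := by rw [← pow_add]; congr 1; ring
      have h6 : c0 n e = (4 + 2 * n) + (e + 1) * n := by unfold c0; ring
      rw [h6, ← pow_mul, pow_add (2 : ℝ) (4 + 2 * n)]
      refine mul_le_mul_of_nonneg_right ?_ (by positivity)
      exact_mod_cast h4
    calc (n : ℝ) * ‖toC g / 2 ^ pW n e - α‖ * (2 ^ (e + 1)) ^ n
        ≤ n * (16 * n / 2 ^ pW n e) * (2 ^ (e + 1)) ^ n := by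
          refine mul_le_mul_of_nonneg_right ?_ (by positivity)
          exact mul_le_mul_of_nonneg_left h1 (by positivity)
      _ = (n * (16 * n) * (2 ^ (e + 1)) ^ n) / 2 ^ pW n e := by ring
      _ ≤ 2 ^ c0 n e / 2 ^ pW n e := div_le_div_of_nonneg_right h3 (by positivity)
  calc (2 : ℝ) ^ k * (n * ‖toC g / 2 ^ pW n e - α‖ * (2 ^ (e + 1)) ^ n)
      ≤ 2 ^ k * (2 ^ c0 n e / 2 ^ pW n e) := mul_le_mul_of_nonneg_left h2 (by positivity)
    _ = 2 ^ (k + c0 n e) / 2 ^ pW n e := by rw [pow_add]; ring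

end approx

/-! ### derivatives -/

theorem coeff_hasse (l : List ℤ) (j i : ℕ) :
    (hasseDeriv j (toPoly l)).coeff i = ((i + j).choose j : ℤ) * l.getD (i + j) 0 := by
  rw [hasseDeriv_coeff, coeff_toPoly]

theorem natDegree_hasse_le {l : List ℤ} {n : ℕ} (hn : l.length = n + 1) (j : ℕ) :
    (hasseDeriv j (toPoly l)).natDegree ≤ n :=
  (natDegree_hasseDeriv_le _ _).trans ((Nat.sub_le _ _).trans (natDegree_toPoly_le hn))

theorem sum_hasse_le {l : List ℤ} {n e : ℕ} (hn : l.length = n + 1)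
    (he : (l.map Int.natAbs).sum ≤ 2 ^ e) (j : ℕ) :
    ∑ i ∈ Finset.range (n + 1), |((hasseDeriv j (toPoly l)).coeff i : ℝ)| ≤ 2 ^ (n + e) := by
  have h1 : ∀ i, |((hasseDeriv j (toPoly l)).coeff i : ℝ)| ≤
      2 ^ n * ((l.getD (i + j) 0).natAbs : ℝ) := by
    intro i
    rw [coeff_hasse]
    push_cast
    rw [abs_mul]
    by_cases h : i + j ≤ n
    · refine mul_le_mul ?_ (le_of_eq ?_) (abs_nonneg _) (by positivity)
      · rw [Nat.abs_cast]
        have h2 : (i + j).choose j ≤ 2 ^ n :=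
          (Nat.choose_le_two_pow _ _).trans (Nat.pow_le_pow_right (by norm_num) h)
        exact_mod_cast h2
      · rw [Nat.cast_natAbs, Int.cast_abs]
    · rw [List.getD_eq_default _ _ (by omega)]
      simp
  have h3 : ∑ i ∈ Finset.range (n + 1), (l.getD (i + j) 0).natAbs ≤ 2 ^ e := by
    refine le_trans ?_ he
    rw [sum_natAbs, hn]
    have h4 : ∑ i ∈ Finset.range (n + 1), (l.getD (i + j) 0).natAbs =
        ∑ i ∈ Finset.Ico j (n + 1 + j), (l.getD i 0).natAbs := by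
      rw [Finset.sum_Ico_eq_sum_range, Nat.add_sub_cancel]
      exact Finset.sum_congr rfl (fun i _ => by rw [add_comm])
    rw [h4]
    have h5 : ∑ i ∈ Finset.Ico j (n + 1 + j), (l.getD i 0).natAbs =
        ∑ i ∈ (Finset.Ico j (n + 1 + j)).filter (fun i => i < n + 1), (l.getD i 0).natAbs := by
      rw [Finset.sum_filter]
      refine Finset.sum_congr rfl (fun i _ => ?_)
      split_ifs with h
      · rfl
      · rw [List.getD_eq_default _ _ (by omega)]; rfl
    rw [h5]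
    refine Finset.sum_le_sum_of_subset (fun i hi => ?_)
    exact Finset.mem_range.2 (Finset.mem_filter.1 hi).2
  calc ∑ i ∈ Finset.range (n + 1), |((hasseDeriv j (toPoly l)).coeff i : ℝ)|
      ≤ ∑ i ∈ Finset.range (n + 1), 2 ^ n * ((l.getD (i + j) 0).natAbs : ℝ) :=
        Finset.sum_le_sum (fun i _ => h1 i)
    _ = 2 ^ n * ((∑ i ∈ Finset.range (n + 1), (l.getD (i + j) 0).natAbs : ℕ) : ℝ) := by
        rw [← Finset.mul_sum]; push_cast; rfl
    _ ≤ 2 ^ n * 2 ^ e := by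
        refine mul_le_mul_of_nonneg_left ?_ (by positivity)
        exact_mod_cast h3
    _ = 2 ^ (n + e) := by rw [pow_add]

theorem eval_hasse_map (p : ℤ[X]) (j : ℕ) (x : ℂ) :
    eval x (hasseDeriv j (p.map (Int.castRingHom ℂ))) = aeval x (hasseDeriv j p) := by
  have h1 : hasseDeriv j (p.map (Int.castRingHom ℂ)) =
      (hasseDeriv j p).map (Int.castRingHom ℂ) := by
    ext i
    rw [hasseDeriv_coeff, coeff_map, coeff_map, hasseDeriv_coeff]
    simp
  rw [h1, aeval_eq_eval_map]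

/-- the Taylor coefficients that the algorithm computes -/
theorem toC_taylor_hat {l : List ℤ} {n : ℕ} (hn : l.length = n + 1) (w : ℕ) (g : ℤ × ℤ) {j : ℕ}
    (hj : j ≤ n) :
    toC ((Pool.Agent.Helper78.UF.taylor g (hat 0 w l)).getD j (0, 0)) =
      2 ^ (w * (n - j)) * aeval (toC g / 2 ^ w) (hasseDeriv j (toPoly l)) := by
  have hlen : (hat 0 w l).length = n + 1 := by rw [length_hat, hn]
  rw [taylor_spec, taylor_coeff, eval_hasse_map,
    aeval_eq_sum_range' (Nat.lt_succ_of_le (natDegree_hasse_le hlen j)),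
    aeval_eq_sum_range' (Nat.lt_succ_of_le (natDegree_hasse_le hn j)), Finset.mul_sum]
  refine Finset.sum_congr rfl (fun i _ => ?_)
  rw [coeff_hasse, coeff_hasse, hat_getD, hn, Nat.add_sub_cancel, zero_mul, zero_add]
  by_cases h : i + j ≤ n
  · rw [zsmul_eq_mul, zsmul_eq_mul, div_pow, ← pow_mul]
    have h2 : (2 : ℂ) ^ (w * (n - j)) = 2 ^ (w * (n - (i + j))) * 2 ^ (w * i) := by
      rw [← pow_add, ← Nat.mul_add]
      congr 2
      omega
    rw [h2]
    push_cast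
    have h3 : (2 : ℂ) ^ (w * i) ≠ 0 := pow_ne_zero _ two_ne_zero
    field_simp
  · rw [List.getD_eq_default _ _ (by omega)]
    simp

/-! ### the first nonvanishing derivative -/

theorem find_range {p : ℕ → Bool} {N m : ℕ} (hm : m < N) (h1 : p m = true)
    (h2 : ∀ j < m, p j = false) : (List.range N).find? p = some m := by
  induction N with
  | zero => omega
  | succ N ih =>
    rw [List.range_succ, List.find?_append]
    by_cases h : m < N
    · rw [ih h]; rfl
    · have hmN : m = N := by omega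
      have h3 : (List.range N).find? p = none := by
        rw [List.find?_eq_none]
        intro x hx
        have := h2 x (by have := List.mem_range.1 hx; omega)
        simp [this]
      rw [h3, ← hmN, List.find?_singleton, h1]
      rfl

theorem rootMult_spec {p : ℤ[X]} (hp : p ≠ 0) (α : ℂ) :
    aeval α (hasseDeriv ((p.map (Int.castRingHom ℂ)).rootMultiplicity α) p) ≠ 0 ∧
      (∀ j < (p.map (Int.castRingHom ℂ)).rootMultiplicity α, aeval α (hasseDeriv j p) = 0) ∧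
      (p.map (Int.castRingHom ℂ)).rootMultiplicity α ≤ p.natDegree := by
  set F := p.map (Int.castRingHom ℂ) with hF
  have hF0 : F ≠ 0 := by
    rw [hF, Ne, Polynomial.map_eq_zero_iff (RingHom.injective_int _)]
    exact hp
  have h1 : F.rootMultiplicity α = (Polynomial.taylor α F).natTrailingDegree :=
    rootMultiplicity_eq_natTrailingDegree
  have h2 : ∀ j, (Polynomial.taylor α F).coeff j = aeval α (hasseDeriv j p) := by
    intro j
    rw [taylor_coeff, hF, eval_hasse_map]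
  have hT0 : Polynomial.taylor α F ≠ 0 := by
    intro h
    exact hF0 ((Polynomial.taylor_eq_zero α F).1 h)
  refine ⟨?_, ?_, ?_⟩
  · rw [h1, ← h2]
    exact coeff_natTrailingDegree_ne_zero.2 hT0
  · intro j hj
    rw [← h2]
    exact coeff_eq_zero_of_lt_natTrailingDegree (by rwa [← h1])
  · rw [h1]
    refine (natTrailingDegree_le_natDegree _).trans ?_
    rw [natDegree_taylor, hF]
    exact natDegree_map_le

theorem lc_le {l : List ℤ} {n : ℕ} (hn : l.length = n + 1) (hl : l.getD n 0 ≠ 0) {e : ℕ}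
    (he : (l.map Int.natAbs).sum ≤ 2 ^ e) : |((toPoly l).leadingCoeff : ℝ)| ≤ 2 ^ e := by
  rw [leadingCoeff, natDegree_toPoly hn hl, coeff_toPoly]
  have h1 : (l.getD n 0).natAbs ≤ 2 ^ e := by
    refine le_trans ?_ he
    rw [sum_natAbs, hn]
    exact Finset.single_le_sum (f := fun k => (l.getD k 0).natAbs) (fun _ _ => Nat.zero_le _)
      (Finset.mem_range.2 (Nat.lt_succ_self n))
  have h2 : |((l.getD n 0 : ℤ) : ℝ)| = ((l.getD n 0).natAbs : ℝ) := by
    rw [Nat.cast_natAbs, Int.cast_abs]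
  rw [h2]
  exact_mod_cast h1

/-- nonzero values are not small -/
theorem aeval_lower {l : List ℤ} {n : ℕ} (hn : l.length = n + 1)
    (hl : l.getD n 0 ≠ 0) {e : ℕ} (he : (l.map Int.natAbs).sum ≤ 2 ^ e)
    {α : ℂ} (hα : aeval α (toPoly l) = 0) {p : ℤ[X]} (hp : p.natDegree ≤ n)
    (hT : ∑ i ∈ Finset.range (n + 1), |(p.coeff i : ℝ)| ≤ 2 ^ tau n e) (h0 : aeval α p ≠ 0) :
    1 / 2 ^ (pU n e - 1) ≤ ‖aeval α p‖ := by
  have h1 : (1 : ℝ) ≤ 2 ^ e := one_le_pow₀ (by norm_num)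
  have h2 : (1 : ℝ) ≤ 2 ^ tau n e := one_le_pow₀ (by norm_num)
  have h3 := norm_lower (toPoly_ne_zero hl) (natDegree_toPoly_le hn) hp h1 h1 h2
    (lc_le hn hl he) (fun β hβ => norm_root_le hn hl he hβ) hT hα h0
  have h4 : ((2 : ℝ) ^ e) ^ n * (2 ^ tau n e * (2 ^ e) ^ n) ^ n = 2 ^ (pU n e - 1) := by
    rw [← pow_mul, ← pow_add, ← pow_mul, ← pow_add]
    congr 1
  rw [h4] at h3
  rw [div_le_iff₀ (by positivity), mul_comm]
  exact h3

theorem multAt_spec {l : List ℤ} {n : ℕ} (hn : l.length = n + 1) (h1 : 1 ≤ n)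
    (hl : l.getLastD 0 ≠ 0) {e : ℕ} (he : (l.map Int.natAbs).sum ≤ 2 ^ e)
    {α : ℂ} (hα : aeval α (toPoly l) = 0) {g : ℤ × ℤ}
    (hg : ‖α * 2 ^ pW n e - toC g‖ ≤ 16 * n) :
    multAt (pU n e) (pW n e) l g =
      ((toPoly l).map (Int.castRingHom ℂ)).rootMultiplicity α := by
  have hl' : l.getD n 0 ≠ 0 := by rwa [getD_last hn]
  have hαe : ‖α‖ ≤ 2 ^ e := norm_root_le hn hl' he hα
  set m := ((toPoly l).map (Int.castRingHom ℂ)).rootMultiplicity α with hm
  obtain ⟨k1, k2, k3⟩ := rootMult_spec (toPoly_ne_zero hl') α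
  rw [← hm] at k1 k2 k3
  rw [natDegree_toPoly hn hl'] at k3
  -- the derivatives at the approximation
  have hnear : ∀ j, ‖aeval (toC g / 2 ^ pW n e) (hasseDeriv j (toPoly l)) -
      aeval α (hasseDeriv j (toPoly l))‖ ≤ 1 / 2 ^ (pU n e + 1) := by
    intro j
    have h3 : n + e ≤ tau n e := by unfold tau s0 b1; omega
    have h4 := aeval_near hαe hg (natDegree_hasse_le hn j) (k := tau n e)
      ((sum_hasse_le hn he j).trans (pow_le_pow_right₀ (by norm_num) h3))
    refine h4.trans (le_of_eq ?_)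
    have h5 : pW n e = (pU n e + 1) + (tau n e + c0 n e) := by unfold pW; ring
    rw [h5, pow_add (2 : ℝ) (pU n e + 1), div_mul_eq_div_div, one_div, div_eq_mul_inv,
      div_eq_mul_inv]
    have h6 : (2 : ℝ) ^ (tau n e + c0 n e) ≠ 0 := by positivity
    field_simp
  have hpos : ∀ j, (0 : ℝ) < 2 ^ (pW n e * (n - j)) := fun j => by positivity
  have hU : (0 : ℝ) < 2 ^ pU n e := by positivity
  have hnorm : ∀ j ≤ n, ‖toC ((Pool.Agent.Helper78.UF.taylor g (hat 0 (pW n e) l)).getD j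
      (0, 0))‖ = 2 ^ (pW n e * (n - j)) *
        ‖aeval (toC g / 2 ^ pW n e) (hasseDeriv j (toPoly l))‖ := by
    intro j hj
    rw [toC_taylor_hat hn _ _ hj, norm_mul, norm_pow, Complex.norm_two]
  have hsmall : ∀ j < m, ¬ (2 ^ (pW n e * (n - j)) <
      n1 ((Pool.Agent.Helper78.UF.taylor g (hat 0 (pW n e) l)).getD j (0, 0)) * 2 ^ pU n e) := by
    intro j hj hlt
    have h3 := hnear j
    rw [k2 j hj, sub_zero] at h3
    have h4 := n1_le_norm ((Pool.Agent.Helper78.UF.taylor g (hat 0 (pW n e) l)).getD j (0, 0))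
    rw [hnorm j (by omega)] at h4
    have h5 : (2 : ℝ) ^ (pW n e * (n - j)) <
        n1 ((Pool.Agent.Helper78.UF.taylor g (hat 0 (pW n e) l)).getD j (0, 0)) * 2 ^ pU n e := by
      exact_mod_cast hlt
    have h6 : (n1 ((Pool.Agent.Helper78.UF.taylor g (hat 0 (pW n e) l)).getD j (0, 0)) : ℝ) *
        2 ^ pU n e ≤ (2 * (2 ^ (pW n e * (n - j)) * (1 / 2 ^ (pU n e + 1)))) * 2 ^ pU n e := by
      refine mul_le_mul_of_nonneg_right (h4.trans ?_) hU.le
      refine mul_le_mul_of_nonneg_left ?_ (by norm_num)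
      exact mul_le_mul_of_nonneg_left h3 (hpos j).le
    have h7 : (2 * ((2 : ℝ) ^ (pW n e * (n - j)) * (1 / 2 ^ (pU n e + 1)))) * 2 ^ pU n e =
        2 ^ (pW n e * (n - j)) := by
      rw [pow_succ]
      field_simp
    linarith
  have hbig : 2 ^ (pW n e * (n - m)) <
      n1 ((Pool.Agent.Helper78.UF.taylor g (hat 0 (pW n e) l)).getD m (0, 0)) * 2 ^ pU n e := by
    have h3 : n + e ≤ tau n e := by unfold tau s0 b1; omega
    have h4 := aeval_lower hn hl' he hα (natDegree_hasse_le hn m)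
      ((sum_hasse_le hn he m).trans (pow_le_pow_right₀ (by norm_num) h3)) k1
    have h5 := hnear m
    have h6 : ‖aeval α (hasseDeriv m (toPoly l))‖ ≤
        ‖aeval (toC g / 2 ^ pW n e) (hasseDeriv m (toPoly l))‖ + 1 / 2 ^ (pU n e + 1) := by
      have := norm_sub_norm_le (aeval α (hasseDeriv m (toPoly l)))
        (aeval (toC g / 2 ^ pW n e) (hasseDeriv m (toPoly l)))
      rw [norm_sub_rev] at this
      linarith
    have hUpos : 1 ≤ pU n e := by unfold pU; omega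
    have h7 : (1 : ℝ) / 2 ^ (pU n e - 1) = 2 / 2 ^ pU n e := by
      have : (2 : ℝ) ^ pU n e = 2 ^ (pU n e - 1) * 2 := by
        rw [← pow_succ, Nat.sub_add_cancel hUpos]
      rw [this]
      field_simp
    have h8 : (1 : ℝ) / 2 ^ (pU n e + 1) = (1 / 2) / 2 ^ pU n e := by
      rw [pow_succ]
      field_simp
    have h9 : 1 / 2 ^ pU n e < ‖aeval (toC g / 2 ^ pW n e) (hasseDeriv m (toPoly l))‖ := by
      have h10 : (2 : ℝ) / 2 ^ pU n e - (1 / 2) / 2 ^ pU n e ≤
          ‖aeval (toC g / 2 ^ pW n e) (hasseDeriv m (toPoly l))‖ := by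
        rw [h7] at h4; rw [h8] at h6; linarith
      refine lt_of_lt_of_le ?_ h10
      rw [← sub_div]
      exact div_lt_div_of_pos_right (by norm_num) hU
    have h11 := norm_toC_le ((Pool.Agent.Helper78.UF.taylor g (hat 0 (pW n e) l)).getD m (0, 0))
    rw [hnorm m k3] at h11
    have h12 : (2 : ℝ) ^ (pW n e * (n - m)) <
        n1 ((Pool.Agent.Helper78.UF.taylor g (hat 0 (pW n e) l)).getD m (0, 0)) * 2 ^ pU n e := by
      calc (2 : ℝ) ^ (pW n e * (n - m))
          = 2 ^ (pW n e * (n - m)) * (1 / 2 ^ pU n e) * 2 ^ pU n e := by field_simp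
        _ < 2 ^ (pW n e * (n - m)) *
            ‖aeval (toC g / 2 ^ pW n e) (hasseDeriv m (toPoly l))‖ * 2 ^ pU n e := by
            refine mul_lt_mul_of_pos_right ?_ hU
            exact mul_lt_mul_of_pos_left h9 (hpos m)
        _ ≤ _ := mul_le_mul_of_nonneg_right h11 hU.le
    exact_mod_cast h12
  unfold multAt
  rw [hn, Nat.add_sub_cancel, find_range (m := m) (by omega) (by simpa using hbig)
    (fun j hj => by simpa using hsmall j hj)]
  rfl

end Pool.Agent.Helper78.UF
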