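import Pool.Agent.Helper79.UF.Excl

/-!
Block R of the univariate factorisation: correctness of the exclusion quadtree.
-/

set_option autoImplicit false

namespace Pool.Agent.Helper78.UF

open Pool.Agent.PolyTime Polynomial

/-! ### degree and root bound -/

theorem getD_last {l : List ℤ} {n : ℕ} (hn : l.length = n + 1) : l.getD n 0 = l.getLastD 0 := by
  have hne : l ≠ [] := by rintro rfl; simp at hn
  rw [List.getD_eq_getElem _ _ (by omega), List.getLastD_eq_getLast?,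
    List.getLast?_eq_some_getLast hne, Option.getD_some, List.getLast_eq_getElem]
  congr 1
  omega

theorem toPoly_ne_zero {l : List ℤ} {n : ℕ} (h : l.getD n 0 ≠ 0) : toPoly l ≠ 0 := by
  intro h0
  apply h
  rw [← coeff_toPoly, h0, coeff_zero]

theorem natDegree_toPoly_le {l : List ℤ} {n : ℕ} (hn : l.length = n + 1) :
    (toPoly l).natDegree ≤ n := by
  rw [natDegree_le_iff_coeff_eq_zero]
  intro k hk
  rw [coeff_toPoly, List.getD_eq_default _ _ (by omega)]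

theorem natDegree_toPoly {l : List ℤ} {n : ℕ} (hn : l.length = n + 1) (hl : l.getD n 0 ≠ 0) :
    (toPoly l).natDegree = n := by
  refine le_antisymm (natDegree_toPoly_le hn) (le_natDegree_of_ne_zero ?_)
  rwa [coeff_toPoly]

theorem sum_natAbs (l : List ℤ) :
    (l.map Int.natAbs).sum = ∑ k ∈ Finset.range l.length, (l.getD k 0).natAbs := by
  induction l with
  | nil => simp
  | cons a l ih =>
    rw [List.map_cons, List.sum_cons, ih, List.length_cons, Finset.sum_range_succ']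
    simp only [List.getD_cons_succ, List.getD_cons_zero]
    omega

/-- Cauchy's bound -/
theorem norm_root_le {l : List ℤ} {n : ℕ} (hn : l.length = n + 1) (hl : l.getD n 0 ≠ 0) {e : ℕ}
    (he : (l.map Int.natAbs).sum ≤ 2 ^ e) {β : ℂ} (hβ : aeval β (toPoly l) = 0) :
    ‖β‖ ≤ 2 ^ e := by
  by_contra hcon
  push Not at hcon
  have h1 : (1 : ℝ) ≤ 2 ^ e := one_le_pow₀ (by norm_num)
  rw [aeval_toPoly_sum, hn, Finset.sum_range_succ] at hβ
  have h2 : ‖((l.getD n 0 : ℤ) : ℂ) * β ^ n‖ =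
      ‖∑ k ∈ Finset.range n, ((l.getD k 0 : ℤ) : ℂ) * β ^ k‖ := by
    rw [eq_neg_of_add_eq_zero_right hβ, norm_neg]
  have h3 : (1 : ℝ) ≤ ‖((l.getD n 0 : ℤ) : ℂ)‖ := by
    rw [Complex.norm_intCast]
    exact_mod_cast Int.one_le_abs hl
  cases n with
  | zero =>
    rw [Finset.range_zero, Finset.sum_empty, norm_zero, pow_zero, mul_one] at h2
    linarith
  | succ m =>
    have h4 : ‖∑ k ∈ Finset.range (m + 1), ((l.getD k 0 : ℤ) : ℂ) * β ^ k‖ ≤
        2 ^ e * ‖β‖ ^ m := by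
      calc ‖∑ k ∈ Finset.range (m + 1), ((l.getD k 0 : ℤ) : ℂ) * β ^ k‖
          ≤ ∑ k ∈ Finset.range (m + 1), ((l.getD k 0).natAbs : ℝ) * ‖β‖ ^ m := by
            refine norm_sum_le_of_le _ (fun k hk => ?_)
            rw [norm_mul, norm_pow, Complex.norm_intCast, Nat.cast_natAbs, Int.cast_abs]
            refine mul_le_mul_of_nonneg_left ?_ (abs_nonneg _)
            exact pow_le_pow_right₀ (by linarith) (by have := Finset.mem_range.1 hk; omega)
        _ = (∑ k ∈ Finset.range (m + 1), ((l.getD k 0).natAbs : ℝ)) * ‖β‖ ^ m := by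
            rw [Finset.sum_mul]
        _ ≤ 2 ^ e * ‖β‖ ^ m := by
            refine mul_le_mul_of_nonneg_right ?_ (by positivity)
            have h5 : ∑ k ∈ Finset.range (m + 1), (l.getD k 0).natAbs ≤ 2 ^ e := by
              rw [sum_natAbs, hn, Finset.sum_range_succ] at he
              omega
            exact_mod_cast h5
    rw [← h2, norm_mul, norm_pow, pow_succ] at h4
    have h6 : 0 < ‖β‖ ^ m := by
      have : 0 < ‖β‖ := by linarith
      positivity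
    have h7 : 1 * (‖β‖ ^ m * ‖β‖) ≤ ‖((l.getD (m + 1) 0 : ℤ) : ℂ)‖ * (‖β‖ ^ m * ‖β‖) :=
      mul_le_mul_of_nonneg_right h3 (by positivity)
    have h8 : ‖β‖ ^ m * 2 ^ e < ‖β‖ ^ m * ‖β‖ := mul_lt_mul_of_pos_left hcon h6
    linarith

theorem exists_root {l : List ℤ} {n : ℕ} (hn : l.length = n + 1) (h1 : 1 ≤ n)
    (hl : l.getD n 0 ≠ 0) : ∃ α : ℂ, aeval α (toPoly l) = 0 := by
  have h0 : ((toPoly l).map (Int.castRingHom ℂ)).natDegree = n := by
    rw [natDegree_map_eq_of_injective (RingHom.injective_int _), natDegree_toPoly hn hl]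
  obtain ⟨α, hα⟩ := IsAlgClosed.exists_root ((toPoly l).map (Int.castRingHom ℂ)) (by
    intro h
    have := natDegree_eq_zero_iff_degree_le_zero.2 (le_of_eq h)
    omega)
  exact ⟨α, by rw [← eval_map_toPoly]; exact hα⟩

/-! ### counting -/

theorem card_odd (x : ℝ) (n : ℕ) :
    ((Finset.Icc ⌈(x - 1) / 2 - 8 * n⌉ ⌊(x - 1) / 2 + 8 * n⌋).image (fun i : ℤ => 2 * i + 1)).card
      ≤ 16 * n + 1 := by
  refine Finset.card_image_le.trans ?_
  rw [Int.card_Icc]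
  have h1 := Int.floor_le ((x - 1) / 2 + 8 * (n : ℝ))
  have h2 := Int.le_ceil ((x - 1) / 2 - 8 * (n : ℝ))
  have h3 : ((⌊(x - 1) / 2 + 8 * (n : ℝ)⌋ - ⌈(x - 1) / 2 - 8 * (n : ℝ)⌉ : ℤ) : ℝ) ≤
      ((16 * n : ℤ) : ℝ) := by
    push_cast
    linarith
  have h4 : ⌊(x - 1) / 2 + 8 * (n : ℝ)⌋ - ⌈(x - 1) / 2 - 8 * (n : ℝ)⌉ ≤ (16 * n : ℤ) := by
    exact_mod_cast h3
  omega

theorem mem_odd {x : ℝ} {n : ℕ} {a : ℤ} (ha : a % 2 = 1) (h : |x - a| ≤ 16 * n) :
    a ∈ (Finset.Icc ⌈(x - 1) / 2 - 8 * n⌉ ⌊(x - 1) / 2 + 8 * n⌋).image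
      (fun i : ℤ => 2 * i + 1) := by
  refine Finset.mem_image.2 ⟨a / 2, ?_, by omega⟩
  have h1 : (a : ℝ) = 2 * ((a / 2 : ℤ) : ℝ) + 1 := by
    have : a = 2 * (a / 2) + 1 := by omega
    exact_mod_cast this
  rw [abs_le] at h
  rw [Finset.mem_Icc, Int.ceil_le, Int.le_floor]
  constructor <;> linarith [h.1, h.2]

theorem length_le {p : ℤ[X]} (hp : p ≠ 0) {n : ℕ} (hdeg : p.natDegree ≤ n) {U : List (ℤ × ℤ)}
    (hU : U.Nodup) (hodd : ∀ g ∈ U, g.1 % 2 = 1 ∧ g.2 % 2 = 1)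
    (hnear : ∀ g ∈ U, ∃ β : ℂ, aeval β p = 0 ∧ ‖β - toC g‖ ≤ 16 * n) :
    U.length ≤ n * (16 * n + 1) ^ 2 := by
  classical
  set f := p.map (Int.castRingHom ℂ) with hf
  have hf0 : f ≠ 0 := by
    rw [hf, Ne, Polynomial.map_eq_zero_iff (RingHom.injective_int _)]
    exact hp
  have hsub : U.toFinset ⊆ f.roots.toFinset.biUnion (fun β =>
      ((Finset.Icc ⌈(β.re - 1) / 2 - 8 * n⌉ ⌊(β.re - 1) / 2 + 8 * n⌋).image
        (fun i : ℤ => 2 * i + 1)) ×ˢ
      ((Finset.Icc ⌈(β.im - 1) / 2 - 8 * n⌉ ⌊(β.im - 1) / 2 + 8 * n⌋).image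
        (fun i : ℤ => 2 * i + 1))) := by
    intro g hg
    rw [List.mem_toFinset] at hg
    obtain ⟨β, hβ, hd⟩ := hnear g hg
    obtain ⟨o1, o2⟩ := hodd g hg
    refine Finset.mem_biUnion.2 ⟨β, ?_, Finset.mem_product.2 ⟨mem_odd o1 ?_, mem_odd o2 ?_⟩⟩
    · rw [Multiset.mem_toFinset, mem_roots hf0, IsRoot.def, hf, eval_map, ← hβ, aeval_def]
      rfl
    · exact (Complex.abs_re_le_norm (β - toC g)).trans hd
    · exact (Complex.abs_im_le_norm (β - toC g)).trans hd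
  rw [← List.toFinset_card_of_nodup hU]
  refine (Finset.card_le_card hsub).trans (Finset.card_biUnion_le.trans ?_)
  refine (Finset.sum_le_card_nsmul _ _ ((16 * n + 1) ^ 2) ?_).trans ?_
  · intro β _
    rw [Finset.card_product, pow_two]
    exact Nat.mul_le_mul (card_odd _ _) (card_odd _ _)
  · rw [smul_eq_mul]
    refine Nat.mul_le_mul_right _ ?_
    refine (Multiset.toFinset_card_le _).trans ((card_roots' f).trans ?_)
    rw [hf]
    exact natDegree_map_le.trans hdeg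

/-! ### children -/

theorem mem_children {g c : ℤ × ℤ} : c ∈ children g ↔
    (c.1 = 2 * g.1 - 1 ∨ c.1 = 2 * g.1 + 1) ∧ (c.2 = 2 * g.2 - 1 ∨ c.2 = 2 * g.2 + 1) := by
  obtain ⟨a, b⟩ := g
  obtain ⟨x, y⟩ := c
  simp only [children, List.mem_cons, Prod.mk.injEq, List.not_mem_nil, or_false]
  tauto

theorem nodup_children (g : ℤ × ℤ) : (children g).Nodup := by
  simp only [children, List.nodup_cons, List.mem_cons, Prod.mk.injEq, List.not_mem_nil, or_false,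
    not_or, not_and, List.nodup_nil, and_true, not_false_eq_true]
  refine ⟨⟨?_, ?_, ?_⟩, ⟨?_, ?_⟩, ?_⟩ <;> omega

theorem exists_half {x : ℝ} {a : ℤ} (h : |x - a| ≤ 1) :
    ∃ c : ℤ, (c = 2 * a - 1 ∨ c = 2 * a + 1) ∧ |2 * x - c| ≤ 1 := by
  rw [abs_le] at h
  rcases le_total (a : ℝ) x with h1 | h1
  · refine ⟨2 * a + 1, Or.inr rfl, ?_⟩
    rw [abs_le]
    push_cast
    constructor <;> linarith [h.1, h.2]
  · refine ⟨2 * a - 1, Or.inl rfl, ?_⟩
    rw [abs_le]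
    push_cast
    constructor <;> linarith [h.1, h.2]

/-! ### the main invariant -/

structure Good (e : ℕ) (l : List ℤ) (n t : ℕ) (S : List (ℤ × ℤ)) : Prop where
  cover : ∀ α : ℂ, aeval α (toPoly l) = 0 → ∃ g ∈ S,
    |α.re * 2 ^ t / 2 ^ e - g.1| ≤ 1 ∧ |α.im * 2 ^ t / 2 ^ e - g.2| ≤ 1
  near : ∀ g ∈ S, ∃ α : ℂ, aeval α (toPoly l) = 0 ∧ ‖α * 2 ^ t / 2 ^ e - toC g‖ ≤ 16 * n
  nodup : S.Nodup
  small : ∀ g ∈ S, g.1.natAbs < 2 ^ t ∧ g.2.natAbs < 2 ^ t
  parity : ∀ g ∈ S, ∀ g' ∈ S, g.1 % 2 = g'.1 % 2 ∧ g.2 % 2 = g'.2 % 2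

theorem scale_eq (α : ℂ) (t e : ℕ) :
    α * 2 ^ t / 2 ^ e = α * (((2 : ℝ) ^ t / 2 ^ e : ℝ) : ℂ) := by
  push_cast
  ring

theorem scale_re (α : ℂ) (t e : ℕ) : (α * 2 ^ t / 2 ^ e).re = α.re * 2 ^ t / 2 ^ e := by
  rw [scale_eq, Complex.re_mul_ofReal]
  ring

theorem scale_im (α : ℂ) (t e : ℕ) : (α * 2 ^ t / 2 ^ e).im = α.im * 2 ^ t / 2 ^ e := by
  rw [scale_eq, Complex.im_mul_ofReal]
  ring

theorem root_hat {l : List ℤ} {n : ℕ} (hn : l.length = n + 1) (e t : ℕ) {α : ℂ}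
    (hα : aeval α (toPoly l) = 0) : aeval (α * 2 ^ t / 2 ^ e) (toPoly (hat e t l)) = 0 := by
  rw [aeval_hat hn]
  have h1 : α * 2 ^ t / 2 ^ e * 2 ^ e / 2 ^ t = α := by
    have h2 : (2 : ℂ) ^ e ≠ 0 := pow_ne_zero _ two_ne_zero
    have h3 : (2 : ℂ) ^ t ≠ 0 := pow_ne_zero _ two_ne_zero
    field_simp
  rw [h1, hα, mul_zero]

theorem root_of_hat {l : List ℤ} {n : ℕ} (hn : l.length = n + 1) (e t : ℕ) {β : ℂ}
    (hβ : aeval β (toPoly (hat e t l)) = 0) : ∃ α : ℂ, aeval α (toPoly l) = 0 ∧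
      α * 2 ^ t / 2 ^ e = β := by
  have h2 : (2 : ℂ) ^ e ≠ 0 := pow_ne_zero _ two_ne_zero
  have h3 : (2 : ℂ) ^ t ≠ 0 := pow_ne_zero _ two_ne_zero
  refine ⟨β * 2 ^ e / 2 ^ t, ?_, by field_simp⟩
  rw [aeval_hat hn] at hβ
  exact (mul_eq_zero.1 hβ).resolve_left (pow_ne_zero _ two_ne_zero)

theorem good_zero {l : List ℤ} {n : ℕ} (hn : l.length = n + 1) (h1 : 1 ≤ n)
    (hl : l.getD n 0 ≠ 0) {e : ℕ} (he : (l.map Int.natAbs).sum ≤ 2 ^ e) :
    Good e l n 0 [(0, 0)] := by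
  have h2 : (0 : ℝ) < 2 ^ e := by positivity
  have hb : ∀ α : ℂ, aeval α (toPoly l) = 0 → ‖α * 2 ^ 0 / 2 ^ e‖ ≤ 1 := by
    intro α hα
    have := norm_root_le hn hl he hα
    rw [pow_zero, mul_one, norm_div, norm_pow]
    rw [Complex.norm_two, div_le_one h2]
    exact this
  refine ⟨fun α hα => ⟨(0, 0), by simp, ?_, ?_⟩, ?_, by simp, by simp, by simp⟩
  · have := (Complex.abs_re_le_norm _).trans (hb α hα)
    rw [scale_re] at this
    simpa using this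
  · have := (Complex.abs_im_le_norm _).trans (hb α hα)
    rw [scale_im] at this
    simpa using this
  · intro g hg
    rw [List.mem_singleton.1 hg, toC_zero]
    obtain ⟨α, hα⟩ := exists_root hn h1 hl
    refine ⟨α, hα, ?_⟩
    rw [sub_zero]
    have h3 : (1 : ℝ) ≤ n := by exact_mod_cast h1
    linarith [hb α hα]

theorem good_succ {l : List ℤ} {n : ℕ} (hn : l.length = n + 1) (h1 : 1 ≤ n)
    (hl : l.getD n 0 ≠ 0) {e t : ℕ} {S : List (ℤ × ℤ)} (hS : Good e l n t S) :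
    Good e l n (t + 1) ((S.flatMap children).filter (keep (hat e (t + 1) l))) ∧
    ((S.flatMap children).filter (keep (hat e (t + 1) l))).length ≤ n * (16 * n + 1) ^ 2 := by
  set U := (S.flatMap children).filter (keep (hat e (t + 1) l)) with hU
  have hmem : ∀ c, c ∈ U ↔ (∃ g ∈ S, c ∈ children g) ∧ keep (hat e (t + 1) l) c = true := by
    intro c
    rw [hU, List.mem_filter, List.mem_flatMap]
  have hlen : (hat e (t + 1) l).length = n + 1 := by rw [length_hat, hn]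
  have hne : toPoly (hat e (t + 1) l) ≠ 0 := by
    refine toPoly_ne_zero (n := n) ?_
    rw [hat_getD]
    exact mul_ne_zero hl (pow_ne_zero _ (by norm_num))
  have hnear : ∀ g ∈ U, ∃ β : ℂ, aeval β (toPoly (hat e (t + 1) l)) = 0 ∧
      ‖β - toC g‖ ≤ 16 * n := by
    intro g hg
    exact near_of_keep hne (natDegree_toPoly_le hlen) h1 ((hmem g).1 hg).2
  have hodd : ∀ g ∈ U, g.1 % 2 = 1 ∧ g.2 % 2 = 1 := by
    intro c hc
    obtain ⟨⟨g, _, hcg⟩, _⟩ := (hmem c).1 hc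
    rw [mem_children] at hcg
    omega
  have hnd : U.Nodup := by
    rw [hU]
    refine List.Nodup.filter _ ?_
    rw [List.nodup_flatMap]
    refine ⟨fun g _ => nodup_children g, ?_⟩
    refine hS.nodup.pairwise_of_forall_ne (fun g hg g' hg' hne => ?_)
    intro c hc hc'
    rw [mem_children] at hc hc'
    have hp := hS.parity g hg g' hg'
    apply hne
    ext <;> omega
  refine ⟨⟨?_, ?_, hnd, ?_, ?_⟩, length_le hne (natDegree_toPoly_le hlen) hnd hodd hnear⟩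
  · intro α hα
    obtain ⟨g, hg, hx, hy⟩ := hS.cover α hα
    obtain ⟨c, hc, hc'⟩ := exists_half hx
    obtain ⟨d, hd, hd'⟩ := exists_half hy
    have e1 : α.re * 2 ^ (t + 1) / 2 ^ e = 2 * (α.re * 2 ^ t / 2 ^ e) := by ring
    have e2 : α.im * 2 ^ (t + 1) / 2 ^ e = 2 * (α.im * 2 ^ t / 2 ^ e) := by ring
    refine ⟨(c, d), (hmem _).2 ⟨⟨g, hg, mem_children.2 ⟨hc, hd⟩⟩, ?_⟩, by rw [e1]; exact hc',
      by rw [e2]; exact hd'⟩
    refine keep_of_near (root_hat hn e (t + 1) hα) ?_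
    refine (Complex.norm_le_abs_re_add_abs_im _).trans ?_
    rw [Complex.sub_re, Complex.sub_im, scale_re, scale_im, e1, e2]
    have h3 : (toC (c, d)).re = c := rfl
    have h4 : (toC (c, d)).im = d := rfl
    rw [h3, h4]
    linarith
  · intro g hg
    obtain ⟨β, hβ, hd⟩ := hnear g hg
    obtain ⟨α, hα, rfl⟩ := root_of_hat hn e (t + 1) hβ
    exact ⟨α, hα, hd⟩
  · intro c hc
    obtain ⟨⟨g, hg, hcg⟩, _⟩ := (hmem c).1 hc
    have h2 := hS.small g hg
    rw [mem_children] at hcg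
    rw [pow_succ]
    omega
  · intro g hg g' hg'
    have h2 := hodd g hg
    have h3 := hodd g' hg'
    omega

theorem size_le_K {n t K : ℕ} (h1 : 1 ≤ n) {U : List (ℤ × ℤ)}
    (hs : ∀ g ∈ U, g.1.natAbs < 2 ^ (t + 1) ∧ g.2.natAbs < 2 ^ (t + 1))
    (hlen : U.length ≤ n * (16 * n + 1) ^ 2) (hK : 30000 * n ^ 3 * (t + 1) ≤ K) : size U ≤ K := by
  have h2 : ∀ g ∈ U, size g ≤ 3 * (t + 1) + 10 := by
    intro g hg
    obtain ⟨a, b⟩ := g
    have h3 := hs _ hg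
    rw [size_pair, size_int, size_int]
    have h4 := size_nat_le.2 h3.1
    have h5 := size_nat_le.2 h3.2
    simp only at h4 h5
    omega
  refine (size_le_of_forall h2).trans ?_
  refine le_trans ?_ hK
  have h6 : n * (16 * n + 1) ^ 2 ≤ 289 * n ^ 3 := by
    have : 16 * n + 1 ≤ 17 * n := by omega
    calc n * (16 * n + 1) ^ 2 ≤ n * (17 * n) ^ 2 :=
          Nat.mul_le_mul_left _ (Nat.pow_le_pow_left this 2)
      _ = 289 * n ^ 3 := by ring
  calc U.length * (2 * (3 * (t + 1) + 10) + 1) ≤ (289 * n ^ 3) * (27 * (t + 1)) :=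
        Nat.mul_le_mul (hlen.trans h6) (by omega)
    _ = 7803 * (n ^ 3 * (t + 1)) := by ring
    _ ≤ 30000 * (n ^ 3 * (t + 1)) := Nat.mul_le_mul_right _ (by norm_num)
    _ = 30000 * n ^ 3 * (t + 1) := by ring

theorem good_squares {l : List ℤ} {n : ℕ} (hn : l.length = n + 1) (h1 : 1 ≤ n)
    (hl : l.getLastD 0 ≠ 0) {e : ℕ} (he : (l.map Int.natAbs).sum ≤ 2 ^ e) {K : ℕ} (t : ℕ)
    (hK : 30000 * n ^ 3 * (t + 1) ≤ K) : Good e l n t (squares K e l t) := by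
  have hl' : l.getD n 0 ≠ 0 := by rwa [getD_last hn]
  induction t with
  | zero => exact good_zero hn h1 hl' he
  | succ t ih =>
    have hK' : 30000 * n ^ 3 * (t + 1) ≤ K :=
      (Nat.mul_le_mul_left _ (by omega)).trans hK
    obtain ⟨hg, hlen⟩ := good_succ hn h1 hl' (ih hK')
    have hsq : squares K e l (t + 1) = clamp K []
        (((squares K e l t).flatMap children).filter (keep (hat e (t + 1) l))) := by
      rw [squares, List.range_succ, List.foldl_append, List.foldl_cons, List.foldl_nil]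
      rfl
    have hsz := size_le_K h1 hg.small hlen hK'
    rw [hsq, clamp, decide_eq_true hsz, cond_true]
    exact hg

/-- every root lies in a retained square; every retained square is near a root -/
theorem squares_spec {l : List ℤ} {n : ℕ} (hn : l.length = n + 1) (h1 : 1 ≤ n)
    (hl : l.getLastD 0 ≠ 0) {e : ℕ} (he : (l.map Int.natAbs).sum ≤ 2 ^ e) {t K : ℕ}
    (hK : 30000 * n ^ 3 * (t + 1) ≤ K) :
    (∀ α : ℂ, aeval α (toPoly l) = 0 → ∃ g ∈ squares K e l t,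
      |α.re * 2 ^ t / 2 ^ e - g.1| ≤ 1 ∧ |α.im * 2 ^ t / 2 ^ e - g.2| ≤ 1) ∧
    (∀ g ∈ squares K e l t, ∃ α : ℂ, aeval α (toPoly l) = 0 ∧
      ‖α * 2 ^ t / 2 ^ e - toC g‖ ≤ 16 * n) :=
  ⟨(good_squares hn h1 hl he t hK).cover, (good_squares hn h1 hl he t hK).near⟩

end Pool.Agent.Helper78.UF
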