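import Pool.Agent.Helper79.UF.Basic

/-!
Block R of the univariate factorisation: the exclusion quadtree runs in polynomial time.
-/

set_option autoImplicit false

namespace Pool.Agent.Helper78.UF

open Pool.Agent.PolyTime

/-! ### sizes -/

theorem size_gauss {c : ℤ × ℤ} {W : ℕ} (h : n1 c ≤ W) : size c ≤ 3 * size W + 10 := by
  obtain ⟨x, y⟩ := c
  rw [size_pair, size_int, size_int]
  have h1 : size x.natAbs ≤ size W := size_nat_mono (le_trans (by simp [n1]) h)
  have h2 : size y.natAbs ≤ size W := size_nat_mono (le_trans (by simp [n1]) h)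
  omega

theorem n1_gadd (x y : ℤ × ℤ) : n1 (gadd x y) ≤ n1 x + n1 y := by
  simp only [n1, gadd]
  have h1 := Int.natAbs_add_le x.1 y.1
  have h2 := Int.natAbs_add_le x.2 y.2
  omega

theorem n1_gmul (x y : ℤ × ℤ) : n1 (gmul x y) ≤ n1 x * n1 y := by
  simp only [n1, gmul]
  have h1 := Int.natAbs_sub_le (x.1 * y.1) (x.2 * y.2)
  have h2 := Int.natAbs_add_le (x.1 * y.2) (x.2 * y.1)
  rw [Int.natAbs_mul, Int.natAbs_mul] at h1 h2
  nlinarith

theorem mem_zipWith {α β γ : Type} {f : α → β → γ} {l : List α} {m : List β} {c : γ}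
    (h : c ∈ List.zipWith f l m) : ∃ a ∈ l, ∃ b ∈ m, f a b = c := by
  rw [← List.map_uncurry_zip_eq_zipWith, List.mem_map] at h
  obtain ⟨⟨a, b⟩, hab, rfl⟩ := h
  exact ⟨a, (List.of_mem_zip hab).1, b, (List.of_mem_zip hab).2, rfl⟩

theorem n1_taylor (g : ℤ × ℤ) (l : List ℤ) :
    ∀ c ∈ Pool.Agent.Helper78.UF.taylor g l,
      n1 c ≤ (l.map Int.natAbs).sum * (1 + n1 g) ^ l.length := by
  induction l with
  | nil => intro c hc; simp [Pool.Agent.Helper78.UF.taylor] at hc
  | cons a l ih =>
    intro c hc
    have h1 : Pool.Agent.Helper78.UF.taylor g (a :: l) =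
        shiftStep g a (Pool.Agent.Helper78.UF.taylor g l) := rfl
    rw [h1, shiftStep] at hc
    obtain ⟨u, hu, v, hv, rfl⟩ := mem_zipWith hc
    set S := (l.map Int.natAbs).sum with hS
    set P := (1 + n1 g) ^ l.length with hP
    have hu' : n1 u ≤ a.natAbs + S * P := by
      rcases List.mem_cons.1 hu with rfl | hu
      · simp [n1]
      · exact (ih u hu).trans (Nat.le_add_left _ _)
    have hv' : n1 v ≤ n1 g * (S * P) := by
      rcases List.mem_append.1 hv with hv | hv
      · obtain ⟨w, hw, rfl⟩ := List.mem_map.1 hv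
        exact (n1_gmul g w).trans (Nat.mul_le_mul_left _ (ih w hw))
      · rw [List.mem_singleton.1 hv]; simp [n1]
    have hP1 : 1 ≤ P := Nat.one_le_pow _ _ (by omega)
    rw [List.map_cons, List.sum_cons, List.length_cons, pow_succ, ← hP, ← hS]
    have h3 := n1_gadd u v
    have h4 : a.natAbs ≤ a.natAbs * (P * (1 + n1 g)) :=
      Nat.le_mul_of_pos_right _ (by positivity)
    calc n1 (gadd u v) ≤ (a.natAbs + S * P) + n1 g * (S * P) := by omega
      _ = a.natAbs + S * (P * (1 + n1 g)) := by ring
      _ ≤ (a.natAbs + S) * (P * (1 + n1 g)) := by rw [add_mul]; omega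

theorem size_taylor (g : ℤ × ℤ) (l : List ℤ) :
    size (Pool.Agent.Helper78.UF.taylor g l) ≤ l.length *
      (2 * (3 * (size (l.map Int.natAbs).sum + (l.length * size (1 + n1 g) + 1)) + 10) + 1) := by
  have h1 := size_le_of_forall (l := Pool.Agent.Helper78.UF.taylor g l)
    (B := 3 * size ((l.map Int.natAbs).sum * (1 + n1 g) ^ l.length) + 10)
    (fun c hc => size_gauss (n1_taylor g l c hc))
  rw [length_taylor] at h1
  refine h1.trans (Nat.mul_le_mul_left _ ?_)
  have h2 := size_nat_mul (l.map Int.natAbs).sum ((1 + n1 g) ^ l.length)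
  have h3 := size_pow_le (1 + n1 g) l.length
  omega

theorem wsum_le_pow (l : List (ℤ × ℤ)) : wsum l ≤ (l.map n1).sum * 2 ^ l.length := by
  induction l with
  | nil => simp [wsum]
  | cons c l ih =>
    have h1 : wsum (c :: l) = n1 c + 2 * wsum l := rfl
    rw [h1, List.map_cons, List.sum_cons, List.length_cons, pow_succ]
    have h2 : n1 c ≤ n1 c * (2 ^ l.length * 2) := Nat.le_mul_of_pos_right _ (by positivity)
    nlinarith

section
variable {α : Type} [PEnc α]

/-! ### the basic operations -/

@[fun_prop]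
theorem pt_gmul {f g : α → ℤ × ℤ} (hf : PolyTime f) (hg : PolyTime g) :
    PolyTime (fun a => gmul (f a) (g a)) := by
  unfold gmul
  fun_prop

@[fun_prop]
theorem pt_gadd {f g : α → ℤ × ℤ} (hf : PolyTime f) (hg : PolyTime g) :
    PolyTime (fun a => gadd (f a) (g a)) := by
  unfold gadd
  fun_prop

@[fun_prop]
theorem pt_n1 {f : α → ℤ × ℤ} (hf : PolyTime f) : PolyTime (fun a => n1 (f a)) := by
  unfold n1
  fun_prop

@[fun_prop]
theorem pt_shiftStep {g : α → ℤ × ℤ} {x : α → ℤ} {l : α → List (ℤ × ℤ)} (hg : PolyTime g)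
    (hx : PolyTime x) (hl : PolyTime l) :
    PolyTime (fun a => shiftStep (g a) (x a) (l a)) := by
  unfold shiftStep
  fun_prop

@[fun_prop]
theorem pt_taylor {g : α → ℤ × ℤ} {l : α → List ℤ} (hg : PolyTime g) (hl : PolyTime l) :
    PolyTime (fun a => Pool.Agent.Helper78.UF.taylor (g a) (l a)) := by
  unfold Pool.Agent.Helper78.UF.taylor
  refine PolyTime.foldr (h := fun a x acc => shiftStep (g a) x acc) (s := fun _ => [])
    hl (by fun_prop) ?_ (B := fun a => size (l a) *
      (2 * (3 * (size ((l a).map Int.natAbs).sum + (size (l a) * size (1 + n1 (g a)) + 1)) + 10)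
        + 1)) ?_ ?_
  · exact pt_shiftStep (hg.comp PolyTime.fst') (by fun_prop) (by fun_prop)
  · have h1 : PBd (fun a => size ((l a).map Int.natAbs).sum) :=
      PolyTime.pbd (f := fun a => ((l a).map Int.natAbs).sum) (by fun_prop)
    have h2 : PBd (fun a => size (1 + n1 (g a))) :=
      PolyTime.pbd (f := fun a => 1 + n1 (g a)) (by fun_prop)
    exact hl.pbd.mul (((PBd.const 2).mul (((PBd.const 3).mul (h1.add
      ((hl.pbd.mul h2).add (PBd.const 1)))).add (PBd.const 10))).add (PBd.const 1))
  · intro a i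
    have h0 : ((l a).drop i).foldr (fun x acc => shiftStep (g a) x acc) [] =
        Pool.Agent.Helper78.UF.taylor (g a) ((l a).drop i) := rfl
    rw [h0]
    refine (size_taylor _ _).trans ?_
    have h1 : ((l a).drop i).length ≤ size (l a) := by
      rw [List.length_drop]
      exact (Nat.sub_le _ _).trans (length_le_size _)
    have h2 : size (((l a).drop i).map Int.natAbs).sum ≤ size ((l a).map Int.natAbs).sum := by
      refine size_nat_mono ?_
      exact List.Sublist.sum_le_sum ((List.drop_sublist _ _).map _) (fun _ _ => Nat.zero_le _)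
    refine Nat.mul_le_mul h1 ?_
    have h3 := Nat.mul_le_mul_right (size (1 + n1 (g a))) h1
    omega

@[fun_prop]
theorem pt_wsum {l : α → List (ℤ × ℤ)} (hl : PolyTime l) : PolyTime (fun a => wsum (l a)) := by
  unfold wsum
  refine PolyTime.foldr (h := fun _ c acc => n1 c + 2 * acc) (s := fun _ => 0)
    hl (by fun_prop) (by fun_prop) (B := fun a => size ((l a).map n1).sum + (size (l a) + 1)) ?_ ?_
  · have h1 : PBd (fun a => size ((l a).map n1).sum) :=
      PolyTime.pbd (f := fun a => ((l a).map n1).sum) (by fun_prop)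
    exact h1.add (hl.pbd.add (PBd.const 1))
  · intro a i
    have h0 : ((l a).drop i).foldr (fun c acc => n1 c + 2 * acc) 0 = wsum ((l a).drop i) := rfl
    rw [h0]
    refine (size_nat_mono (wsum_le_pow _)).trans ?_
    refine (size_nat_mul _ _).trans (Nat.add_le_add ?_ ?_)
    · refine size_nat_mono ?_
      exact List.Sublist.sum_le_sum ((List.drop_sublist _ _).map _) (fun _ _ => Nat.zero_le _)
    · refine (size_nat_two_pow _).trans (Nat.add_le_add_right ?_ _)
      rw [List.length_drop]
      exact (Nat.sub_le _ _).trans (length_le_size _)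

@[fun_prop]
theorem pt_keep {l : α → List ℤ} {g : α → ℤ × ℤ} (hl : PolyTime l) (hg : PolyTime g) :
    PolyTime (fun a => keep (l a) (g a)) := by
  unfold keep
  fun_prop

theorem pt_hat {e t : α → ℕ} {l : α → List ℤ} (he : PolyTime e) (he' : PBd e) (ht : PolyTime t)
    (ht' : PBd t) (hl : PolyTime l) : PolyTime (fun a => hat (e a) (t a) (l a)) := by
  have h1 : PolyTime (fun q : α × ℤ × ℕ => 2 ^ (e q.1 * min q.2.2 (l q.1).length +
      t q.1 * ((l q.1).length - 1 - q.2.2))) := by
    have e1 := he.comp (PolyTime.fst' (α := α) (β := ℤ × ℕ))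
    have t1 := ht.comp (PolyTime.fst' (α := α) (β := ℤ × ℕ))
    have l1 := hl.comp (PolyTime.fst' (α := α) (β := ℤ × ℕ))
    refine PolyTime.pow (by fun_prop) (by fun_prop) ?_
    have e2 := he'.comp (PolyTime.fst' (α := α) (β := ℤ × ℕ))
    have t2 := ht'.comp (PolyTime.fst' (α := α) (β := ℤ × ℕ))
    have l2 := pbd_length l1
    refine PBd.mono ((e2.mul l2).add (t2.mul l2)) (fun q => ?_)
    refine Nat.add_le_add (Nat.mul_le_mul_left _ (min_le_right _ _))
      (Nat.mul_le_mul_left _ ?_)
    omega
  refine (PolyTime.map (l := fun a => (l a).zipIdx) (g := fun a p =>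
    p.1 * ((2 ^ (e a * min p.2 (l a).length + t a * ((l a).length - 1 - p.2)) : ℕ) : ℤ))
    hl.zipIdx ?_).congr (fun a => ?_)
  · exact PolyTime.int_mul (by fun_prop) (PolyTime.natCast_int h1)
  · unfold hat
    refine List.map_congr_left (fun p hp => ?_)
    obtain ⟨x, i⟩ := p
    have h2 := List.mem_zipIdx hp
    have h3 : min i (l a).length = i := by omega
    simp only [h3]

theorem pt_squares {K e t : α → ℕ} {l : α → List ℤ} (hK : PolyTime K) (hK' : PBd K)
    (he : PolyTime e) (he' : PBd e) (ht : PolyTime t) (ht' : PBd t) (hl : PolyTime l) :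
    PolyTime (fun a => squares (K a) (e a) (l a) (t a)) := by
  have key : ∀ (a : α) (i : ℕ), i ≤ t a →
      squares (K a) (e a) (l a) i = (List.range i).foldl (fun s i => clamp (K a) []
        ((s.flatMap children).filter (keep (hat (e a) (min i (t a) + 1) (l a))))) [(0, 0)] := by
    intro a i
    induction i with
    | zero => intro _; rfl
    | succ i ih =>
      intro hi
      rw [squares, List.range_succ, List.foldl_append, List.foldl_append, ← ih (by omega),
        List.foldl_cons, List.foldl_nil, List.foldl_cons, List.foldl_nil,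
        min_eq_left (by omega : i ≤ t a)]
      rfl
  refine (PolyTime.foldl (l := fun a => List.range (t a)) (s := fun _ => [((0 : ℤ), (0 : ℤ))])
    (h := fun a s i => clamp (K a) []
      ((s.flatMap children).filter (keep (hat (e a) (min i (t a) + 1) (l a)))))
    (ht.range ht') (by fun_prop) ?_ (B := fun a => K a + size [((0 : ℤ), (0 : ℤ))]) ?_ ?_).congr
    (fun a => (key a _ le_rfl).symm)
  · have hh : PolyTime (fun q : (α × List (ℤ × ℤ) × ℕ) × (ℤ × ℤ) =>
        keep (hat (e q.1.1) (min q.1.2.2 (t q.1.1) + 1) (l q.1.1)) q.2) := by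
      have hf : PolyTime (fun q : (α × List (ℤ × ℤ) × ℕ) × (ℤ × ℤ) => q.1.1) := by fun_prop
      have e1 := he.comp hf
      have t1 := ht.comp hf
      have l1 := hl.comp hf
      refine pt_keep (pt_hat e1 (he'.comp hf) (by fun_prop) ?_ l1) (by fun_prop)
      exact PBd.mono ((ht'.comp hf).add (PBd.const 1)) (fun q => by
        exact Nat.add_le_add_right (min_le_right _ _) _)
    have h2 : PolyTime (fun q : α × List (ℤ × ℤ) × ℕ => (q.2.1.flatMap children).filter
        (keep (hat (e q.1) (min q.2.2 (t q.1) + 1) (l q.1)))) := by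
      refine PolyTime.filter (l := fun q : α × List (ℤ × ℤ) × ℕ => q.2.1.flatMap children)
        (p := fun q g => keep (hat (e q.1) (min q.2.2 (t q.1) + 1) (l q.1)) g) ?_ hh
      refine PolyTime.flatMap (g := fun _ g => children g) (by fun_prop) ?_
      unfold children
      fun_prop
    have hK1 := hK.comp (PolyTime.fst' (α := α) (β := List (ℤ × ℤ) × ℕ))
    unfold clamp
    fun_prop
  · exact hK'.add (PBd.const _)
  · intro a i
    have h1 : ∀ (m : List ℕ), size (m.foldl (fun s i => clamp (K a) []
      ((s.flatMap children).filter (keep (hat (e a) (min i (t a) + 1) (l a))))) [(0, 0)]) ≤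
        K a + size [((0 : ℤ), (0 : ℤ))] := by
      intro m
      rcases List.eq_nil_or_concat m with rfl | ⟨m, b, rfl⟩
      · exact Nat.le_add_left _ _
      · rw [List.concat_eq_append, List.foldl_append, List.foldl_cons, List.foldl_nil]
        have hcl : ∀ z : List (ℤ × ℤ), size (clamp (K a) [] z) ≤ K a := by
          intro z
          unfold clamp
          by_cases hc : size z ≤ K a
          · simp only [hc, decide_true, cond_true]
          · simp only [hc, decide_false, cond_false, size_nil]
            omega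
        exact (hcl _).trans (Nat.le_add_right _ _)
    exact h1 _

end

end Pool.Agent.Helper78.UF
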